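import Mathlib
import Pool.Agent.Helper28.Ball.Mono

/-!
Definitions for the degree bound of rational proper maps of balls below the maximal geometric rank.
-/

namespace Pool.Agent.Helper69.DC

open MvPolynomial Finset ComplexConjugate

/-- The Hermitian form of signature `(1, N)` on `ℂ^(N+1)`. -/
noncomputable def hf {N : ℕ} (x y : Fin (N + 1) → ℂ) : ℂ :=
  x 0 * conj (y 0) - ∑ j : Fin N, x j.succ * conj (y j.succ)

/-- The vector `f(β, a)`; the variables are `β` (`Sum.inl i`) and `a` (`Sum.inr ()`). -/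
noncomputable def fv {m N : ℕ} (f : Fin (N + 1) → MvPolynomial (Fin m ⊕ Unit) ℂ)
    (β : Fin m → ℂ) (a : ℂ) : Fin (N + 1) → ℂ :=
  fun k => eval (Sum.elim β fun _ => a) (f k)

/-- A map in Siegel form: `(f1)` orthogonality, `(f2)` degree, `(f3)` no common factor. -/
structure SMap (m N d : ℕ) (f : Fin (N + 1) → MvPolynomial (Fin m ⊕ Unit) ℂ) : Prop where
  orth : ∀ (β : Fin m → ℂ) (a : ℂ) (β' : Fin m → ℂ) (a' : ℂ),
    a + conj a' = ∑ i, β i * conj (β' i) → hf (fv f β a) (fv f β' a') = 0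
  deg : ∀ k, (f k).totalDegree ≤ d
  top : ∃ k, (f k).totalDegree = d
  cop : ∀ r : MvPolynomial (Fin m ⊕ Unit) ℂ, (∀ k, r ∣ f k) → IsUnit r

/-- Null points (boundary points of the Siegel domain). -/
def Null {m : ℕ} (β : Fin m → ℂ) (a : ℂ) : Prop := a + conj a = ∑ i, β i * conj (β i)

/-- The polynomial (in one variable `t`) `f_k(β + t v, a + t c)`. -/
noncomputable def la {m N : ℕ} (f : Fin (N + 1) → MvPolynomial (Fin m ⊕ Unit) ℂ)
    (β : Fin m → ℂ) (a : ℂ) (v : Fin m → ℂ) (c : ℂ) (k : Fin (N + 1)) : Polynomial ℂ :=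
  aeval (Sum.elim (fun i => Polynomial.C (β i) + Polynomial.C (v i) * Polynomial.X)
    (fun _ => Polynomial.C a + Polynomial.C c * Polynomial.X)) (f k)

/-- The vectors `A_j(v)`: `f(β + t v, a + t v . conj β) = ∑_j A_j(v) t^j`. -/
noncomputable def AJ {m N : ℕ} (f : Fin (N + 1) → MvPolynomial (Fin m ⊕ Unit) ℂ)
    (β : Fin m → ℂ) (a : ℂ) (v : Fin m → ℂ) (j : ℕ) : Fin (N + 1) → ℂ :=
  fun k => (la f β a v (∑ i, v i * conj (β i)) k).coeff j

/-- The polynomial `g(η) = f(η, η . conj β - b)` in `η`, the map on the hyperplane orthogonal to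
`(β, conj b)`. -/
noncomputable def gp {m N : ℕ} (f : Fin (N + 1) → MvPolynomial (Fin m ⊕ Unit) ℂ)
    (β : Fin m → ℂ) (b : ℂ) (k : Fin (N + 1)) : MvPolynomial (Fin m) ℂ :=
  aeval (Sum.elim (fun i => X i) (fun _ => ∑ i, C (conj (β i)) * X i - C b)) (f k)

/-- The function `η ↦ ⟨g(η), c⟩`. -/
noncomputable def hq {m N : ℕ} (f : Fin (N + 1) → MvPolynomial (Fin m ⊕ Unit) ℂ)
    (β : Fin m → ℂ) (b : ℂ) (c : Fin (N + 1) → ℂ) : MvPolynomial (Fin m) ℂ :=
  C (conj (c 0)) * gp f β b 0 - ∑ j : Fin N, C (conj (c j.succ)) * gp f β b j.succ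

/-- The linear polynomial `X(η) = (η - β) . conj v`. -/
noncomputable def xp {m : ℕ} (β v : Fin m → ℂ) : MvPolynomial (Fin m) ℂ :=
  ∑ i, C (conj (v i)) * (X i - C (β i))

/-- Variables `β` (`inl i`), `β'` (`inr (inl i)`) and `b` (`inr (inr ())`). -/
abbrev V3 (m : ℕ) := Fin m ⊕ (Fin m ⊕ Unit)

/-- The point `(β, β', b)`. -/
def pt {m : ℕ} (β β' : Fin m → ℂ) (b : ℂ) : V3 m → ℂ :=
  Sum.elim β (Sum.elim β' fun _ => b)

/-- `f_k(β, β . β' - b)` as a polynomial in `(β, β', b)`. -/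
noncomputable def gg {m N : ℕ} (f : Fin (N + 1) → MvPolynomial (Fin m ⊕ Unit) ℂ)
    (k : Fin (N + 1)) : MvPolynomial (V3 m) ℂ :=
  aeval (Sum.elim (fun i => X (Sum.inl i))
    (fun _ => ∑ i, X (Sum.inl i) * X (Sum.inr (Sum.inl i)) - X (Sum.inr (Sum.inr ())))) (f k)

/-- Specialisation `β' = conj β₀`, `b = b₀`, `β` stays variable. -/
noncomputable def spec {m : ℕ} (β₀ : Fin m → ℂ) (b₀ : ℂ) :
    MvPolynomial (V3 m) ℂ →ₐ[ℂ] MvPolynomial (Fin m) ℂ :=
  aeval (Sum.elim (fun i => X i) (Sum.elim (fun i => C (conj (β₀ i))) fun _ => C b₀))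

/-- `D_0 = id`, `D_(i+1) = ∂/∂β_i` on polynomials in `(β, β', b)`. -/
noncomputable def DD {m : ℕ} (i : Fin (m + 1)) (P : MvPolynomial (V3 m) ℂ) :
    MvPolynomial (V3 m) ℂ :=
  Fin.cases P (fun i => pderiv (Sum.inl i) P) i

/-- `D_0 = id`, `D_(i+1) = ∂/∂β_i` on polynomials in `β`. -/
noncomputable def D1 {m : ℕ} (i : Fin (m + 1)) (P : MvPolynomial (Fin m) ℂ) :
    MvPolynomial (Fin m) ℂ :=
  Fin.cases P (fun i => pderiv i P) i

/-- The Siegel (Cayley) transform of a polynomial in the ball coordinates, in degree `d`. -/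
noncomputable def cay {m : ℕ} (d : ℕ) (P : MvPolynomial (Fin (m + 1)) ℂ) :
    MvPolynomial (Fin m ⊕ Unit) ℂ :=
  ∑ i ∈ range (d + 1), (1 + X (Sum.inr ())) ^ (d - i) *
    aeval (Fin.cons (1 - X (Sum.inr ())) fun j => C ((Real.sqrt 2 : ℝ) : ℂ) * X (Sum.inl j))
      (homogeneousComponent i P)

end Pool.Agent.Helper69.DC
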