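import Mathlib
import Pool.Agent.Helper28.Ball.Mono
import Pool.Agent.Helper69.DC.Defs

/-!
Goals (packets) for the degree bound `(n-1)d + 1 ≤ N` when `N < n(n+1)/2`.
-/

namespace Pool.Agent.Helper69.DC

open MvPolynomial Finset ComplexConjugate Pool.Agent.Helper28.Ball

/-- **G_SPH** (a proper map sends the sphere to the sphere).

PROOF. Let `|z| = 1`. If `q(z) = 0`: in the ball `∑ |p_j|² < |q|²`, at the points `r z`, `r → 1⁻`, by
continuity `∑ |p_j(z)|² ≤ |q(z)|² = 0`, equality. Let `q(z) ≠ 0`. By continuity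
`s := ∑ |p_j(z)/q(z)|² ≤ 1`. Suppose `s < 1`. Points `z_k := (1 - 1/(k+2)) z` of the ball,
`w_k := p(z_k)/q(z_k) → w := p(z)/q(z)`, `w` in the open ball. `K := {w} ∪ {w_k}` is compact
(`Filter.Tendsto.isCompact_insert_range`) and contained in the open ball, so its preimage in the
ball is compact, hence closed, contains all `z_k`, so contains the limit `z`; but `|z| = 1`. -/
def G_SPH : Prop :=
  ∀ (n N : ℕ) (p : Fin N → MvPolynomial (Fin n) ℂ) (q : MvPolynomial (Fin n) ℂ),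
    IsProperMap p q → ∀ z : Fin n → ℂ, ∑ i, ‖z i‖ ^ 2 = 1 →
    ∑ j, ‖eval z (p j)‖ ^ 2 = ‖eval z q‖ ^ 2

/-- **G_LD** (density of the real points; `κ` is a set of extra variables, taken with their
conjugates).

PROOF. Use `Pool.Agent.Helper28.Ball.eq_zero_of_conj` (file `Helper28/Ball/Polar.lean`) with
`σ := (Fin m ⊕ Unit) ⊕ κ`, coordinates `z = ((β, s), w)`, conjugates `((β', s'), w')`. Let `φ` be the
substitution `β ↦ β`, `β' ↦ β'`, `b ↦ (∑ β_i β'_i - s + s')/2`, `w ↦ w`, `w' ↦ w'` and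
`F := aeval φ P`. At a real point (`β' = conj β`, `s' = conj s`, `w' = conj w`) the value of `b`
satisfies `b + conj b = ∑ β_i conj β_i` (the part `s - conj s` is purely imaginary), so `F` vanishes
there. So `F` vanishes at all points. Every `(β, β', b, w, w')` is an image of `φ` (take `s = 0`,
`s' = 2b - ∑ β_i β'_i`), so `P` vanishes at all points, `P = 0` (`MvPolynomial.funext`). -/
def G_LD : Prop :=
  ∀ (m : ℕ) (κ : Type) (P : MvPolynomial (V3 m ⊕ (κ ⊕ κ)) ℂ),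
    (∀ (β : Fin m → ℂ) (b : ℂ) (w : κ → ℂ), b + conj b = ∑ i, β i * conj (β i) →
      eval (Sum.elim (pt β (fun i => conj (β i)) b) (Sum.elim w fun i => conj (w i))) P = 0) →
    P = 0

/-- **G_LD3** (the same without extra variables). PROOF: `G_LD` with `κ = Empty` and
`rename Sum.inl P` (injective). -/
def G_LD3 : Prop :=
  ∀ (m : ℕ) (P : MvPolynomial (V3 m) ℂ),
    (∀ (β : Fin m → ℂ) (b : ℂ), b + conj b = ∑ i, β i * conj (β i) →
      eval (pt β (fun i => conj (β i)) b) P = 0) → P = 0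

/-- **G_ORTH** (polarisation). PROOF. Let
`P := gg f 0 * F̄ 0 - ∑ j, gg f j.succ * F̄ j.succ` in `MvPolynomial (V3 m) ℂ`, where `F̄ k` is `f k`
with conjugated coefficients (`Pool.Agent.Helper28.Ball.cj`, `eval_cj`), the variable `β_i` renamed
to `β'_i` and the variable `a` to `b`. At a point `(β, conj β, b)` with `b + conj b = |β|²` the value
of `gg f k` is `fv f β a k` with `a := |β|² - b = conj b` and the value of `F̄ k` is
`conj (fv f β a k)`, as `b = conj a`. So `P = 0` by `G_LD3`. For `a + conj a' = ∑ β_i conj β'_i`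
evaluate `P` at `(β, conj β', conj a')`: `gg f k` has the value `fv f β a k`
(`a = ∑ β_i conj β'_i - conj a'`) and `F̄ k` the value `conj (fv f β' a' k)`. -/
def G_ORTH : Prop :=
  ∀ (m N : ℕ) (f : Fin (N + 1) → MvPolynomial (Fin m ⊕ Unit) ℂ),
    (∀ (β : Fin m → ℂ) (a : ℂ), Null β a → hf (fv f β a) (fv f β a) = 0) →
    ∀ (β : Fin m → ℂ) (a : ℂ) (β' : Fin m → ℂ) (a' : ℂ),
      a + conj a' = ∑ i, β i * conj (β' i) → hf (fv f β a) (fv f β' a') = 0

/-- **G_CEV** (value of the Cayley transform). PROOF. `homogeneousComponent i P` is homogeneous of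
degree `i`, so its value at `x/(1+a)` is `(1+a)^(-i)` times the value at `x`; `P` is the sum of its
homogeneous components of degree `≤ d`. -/
def G_CEV : Prop :=
  ∀ (m d : ℕ) (P : MvPolynomial (Fin (m + 1)) ℂ), P.totalDegree ≤ d →
    ∀ (β : Fin m → ℂ) (a : ℂ), 1 + a ≠ 0 →
    eval (Sum.elim β fun _ => a) (cay d P) =
      (1 + a) ^ d * eval (Fin.cons ((1 - a) / (1 + a))
        fun j => ((Real.sqrt 2 : ℝ) : ℂ) * β j / (1 + a)) P

/-- **G_CCOP** (the Cayley transform keeps the degree and the absence of common factors).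

PROOF. Write `s = √2`. (a) `totalDegree (cay d P) ≤ d`: every summand is a product of `(1+a)^(d-i)` and
of a polynomial of degree `≤ i` evaluated at polynomials of degree `≤ 1`.

(b) Inverse transform. For `R : MvPolynomial (Fin m ⊕ Unit) ℂ` and `e ≥ totalDegree R` let
`R^(z) := ∑_(i ≤ e) (1 + z_0)^(e-i) (homogeneousComponent i R)(β_j := s z_(j+1), a := 1 - z_0)`, a
polynomial in `z`; for `1 + z_0 ≠ 0` its value is `(1 + z_0)^e R(s z_(j+1)/(1+z_0), (1-z_0)/(1+z_0))`.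
It is multiplicative (`(RS)^` in degree `e + e'` is `R^ S^`): equality of values at all `z` with
`1 + z_0 ≠ 0` is enough (multiply by `1 + z_0`, cancel in the domain). For `R = cay d P`, `e = d`: the
value at `z` with `1 + z_0 ≠ 0`, with `a = (1-z_0)/(1+z_0)`, `1 + a = 2/(1+z_0) ≠ 0`,
`(1-a)/(1+a) = z_0`, `s β_j/(1+a) = z_(j+1)`, is `(1+z_0)^d (2/(1+z_0))^d P(z) = 2^d P(z)` by `G_CEV`.

(c) some `cay d (P k)` has degree `d`: otherwise (`d ≥ 1`, as some `P k` is nonzero and if `d = 0` all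
is trivial) all have degree `≤ d-1` (or are zero), and `2^d P_k = (1+z_0) (..)` by (b) in degrees `d`
and `d - 1` (`R^` in degree `d` is `(1+z_0)` times `R^` in degree `d-1`), so `1 + z_0` divides all
`P k`, not a unit: contradiction.

(d) Let `R` divide all `cay d (P k)`, `cay d (P k) = R S_k`, `e := totalDegree R`; as (domain) degrees
add, `totalDegree S_k ≤ d - e` when `S_k ≠ 0` (some `cay d (P k)` is nonzero, so `R ≠ 0`, `e ≤ d`). By (b)
`2^d P_k = R^ S_k^`, so `R^` divides all `P k`, is a unit, a constant `c ≠ 0`. For `1 + a ≠ 0` take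
`z_0 = (1-a)/(1+a)`, `z_(j+1) = s β_j/(1+a)`, `1 + z_0 = 2/(1+a)`: `c = (2/(1+a))^e R(β,a)`, so
`2^e R(β,a) = c (1+a)^e` for `1 + a ≠ 0` and so for all `(β,a)`. If `e = 0`, `R` is a nonzero constant,
done. If `e ≥ 1` then `R(β,-1) = 0`, so `cay d (P k)` vanishes for `a = -1`, all `k`. At `a = -1` only
`i = d` contributes: `(homogeneousComponent d (P k))(2, s β) = 0` for all `β`. By homogeneity
`(homogeneousComponent d (P k))(x_0, x) = 0` whenever `x_0 ≠ 0`, so it is zero, for all `k`: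
contradiction with `totalDegree (P k) = d` for some `k` (for `d = 0` we have `e = 0`). -/
def G_CCOP : Prop :=
  ∀ (m N d : ℕ) (P : Fin (N + 1) → MvPolynomial (Fin (m + 1)) ℂ),
    (∀ r : MvPolynomial (Fin (m + 1)) ℂ, (∀ k, r ∣ P k) → IsUnit r) →
    (∀ k, (P k).totalDegree ≤ d) → (∃ k, (P k).totalDegree = d) →
    (∀ k, (cay d (P k)).totalDegree ≤ d) ∧ (∃ k, (cay d (P k)).totalDegree = d) ∧
    ∀ r : MvPolynomial (Fin m ⊕ Unit) ℂ, (∀ k, r ∣ cay d (P k)) → IsUnit r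

/-- **G_CAY** (a proper rational map gives a map in Siegel form). From `G_SPH`, `G_ORTH`, `G_CEV`,
`G_CCOP`.

PROOF. `P := Fin.cons q p`, `f k := cay d (P k)`. Coprimality and degrees: `G_CCOP`. `orth`: by `G_ORTH`
it is enough that `hf (fv f β a) (fv f β a) = 0` for `a + conj a = |β|²`. Then `Re a ≥ 0`, so
`1 + a ≠ 0`, and `z := ((1-a)/(1+a), √2 β_j/(1+a))` satisfies `∑ |z_i|² = 1`, because
`|1-a|² + 2|β|² = |1+a|²` (`|1+a|² - |1-a|² = 4 Re a = 2|β|²`). By `G_CEV` the value is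
`|1+a|^(2d) (|q(z)|² - ∑ |p_j(z)|²) = 0` by `G_SPH`. -/
def G_CAY : Prop :=
  ∀ (m N d : ℕ) (p : Fin N → MvPolynomial (Fin (m + 1)) ℂ) (q : MvPolynomial (Fin (m + 1)) ℂ),
    IsProperMap p q → mapDegree p q = d →
    ∃ f : Fin (N + 1) → MvPolynomial (Fin m ⊕ Unit) ℂ, SMap m N d f

/-- **G_BEZ** (generic lines avoid the base points).

PROOF. `A := MvPolynomial (ι ⊕ ι) ℂ` (variables `x`, `y`), a UFD, `Φ_k := f_k(x + T y) ∈ A[T]`
(`Polynomial A`), `K := FractionRing A`. CLAIM: the ideal of `K[T]` generated by the `Φ_k` is the whole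
ring. Otherwise it is generated by some `γ` (PID) of degree `≥ 1` (`γ ≠ 0` because not all `f_k` are
zero, else `0` divides all of them and would be a unit; `Φ_k` at `T = 0` is `f_k(x)`). Multiplying by an
element of `K` we may take for `γ` the image of a primitive `π ∈ A[T]`; Gauss's lemma
(`Polynomial.IsPrimitive.dvd_of_fraction_map_dvd_fraction_map` or similar) gives `π ∣ Φ_k` in `A[T]` for
all `k`. Let `θ` be the automorphism of `A[T]` with `x_i ↦ x_i - T y_i`, `y_i ↦ y_i`, `T ↦ T`; then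
`θ(Φ_k) = f_k(x)` has degree `0` in `T`. `θ(π)` divides `f_k(x)` for all `k`, one of them nonzero, so
`θ(π)` has degree `0` in `T` (domain), `θ(π) = ρ ∈ A`, `ρ(x,y) ∣ f_k(x)` in `A` for all `k`. Comparing
degrees in the `y_i` (or: for every `y₀`, `ρ(x,y₀) ∣ f_k(x)` in `ℂ[x]`, so `ρ(x,y₀)` is a unit) `ρ` is a
nonzero constant [the total degree in `y` of `ρ` is `0` since `ρ` times something is `f_k(x) ≠ 0`; then
`ρ = ρ'(x)`, `ρ' ∣ f_k` for all `k`, `ρ'` unit]. So `θ(π)` is a unit, so `π` is a unit, of degree `0`: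
contradiction. (ALTERNATIVE to Gauss: induction is not needed; any argument is welcome.)

So `∑ P_k Φ_k = 1` in `K[T]`; clearing denominators `∑ P_k Φ_k = D` with `P_k ∈ A[T]`, `0 ≠ D ∈ A`. If
`D(x,y) ≠ 0` then for every `t` not all `f_k(x + t y)` vanish (evaluate at `x, y, T = t`). -/
def G_BEZ : Prop :=
  ∀ (ι : Type) [Fintype ι] (N : ℕ) (f : Fin (N + 1) → MvPolynomial ι ℂ),
    (∀ r : MvPolynomial ι ℂ, (∀ k, r ∣ f k) → IsUnit r) →
    ∃ D : MvPolynomial (ι ⊕ ι) ℂ, D ≠ 0 ∧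
      ∀ x y : ι → ℂ, eval (Sum.elim x y) D ≠ 0 → ∀ t : ℂ, ∃ k, eval (fun i => x i + t * y i) (f k) ≠ 0

/-- **G_HF2** (two orthogonal null vectors are proportional). PROOF. `x 0 ≠ 0` (else `∑ |x_j|² = 0`).
`z := y - (y 0/x 0) x` has `z 0 = 0` and `hf z z = 0` (expand), so `∑ |z_j|² = 0`, `z = 0`. -/
def G_HF2 : Prop :=
  ∀ (N : ℕ) (x y : Fin (N + 1) → ℂ), x ≠ 0 → hf x x = 0 → hf y y = 0 → hf y x = 0 →
    ∃ c : ℂ, y = c • x

/-- **G_AJO** (orthogonality of the vectors `A_j`). PROOF. `z = (β, a)` null. For `u . conj v = 0` (and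
all `t, s`) the points `(β + t u, a + t u.conj β)` and `(β + s v, a + s v.conj β)` satisfy the condition of
`orth` (`a + t u.conjβ + conj a + conj s conj v.β = (β + tu).conj(β + sv)` because
`a + conj a = |β|²`, `u.conj v = 0`). So `∑_(i,j) t^i conj(s)^j hf (A_i(u)) (A_j(v)) = 0` for all
`t, s`, and all coefficients vanish (`natDegree (la ..) ≤ d`). For the second part take the points `(β, a)`
and `(β + s v, ..)`: for every `v`, `hf (A_0) (A_j(v)) = 0`. (`A_0(v) = fv f β a` does not depend on `v`.) -/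
def G_AJO : Prop :=
  ∀ (m N d : ℕ) (f : Fin (N + 1) → MvPolynomial (Fin m ⊕ Unit) ℂ), SMap m N d f →
    ∀ (β : Fin m → ℂ) (a : ℂ), Null β a →
    (∀ (u v : Fin m → ℂ), ∑ i, u i * conj (v i) = 0 → ∀ i j : ℕ,
      hf (AJ f β a u i) (AJ f β a v j) = 0) ∧
    (∀ (v : Fin m → ℂ) (j : ℕ), hf (AJ f β a v j) (fv f β a) = 0) ∧
    (∀ v : Fin m → ℂ, AJ f β a v 0 = fv f β a) ∧
    (∀ (v : Fin m → ℂ) (j : ℕ), d < j → AJ f β a v j = 0) ∧
    (∀ (v : Fin m → ℂ) (t : ℂ), ∑ j ∈ range (d + 1), t ^ j • AJ f β a v j =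
      fv f (fun i => β i + t * v i) (a + t * ∑ i, v i * conj (β i)))

/-- **G_DIV** (divisibility by the square of a linear polynomial).

PROOF. `X := xp β v`. Choose `i` with `v_i ≠ 0`; `X = conj v_i X_i + (terms without X_i)`. A polynomial `h`
vanishing on the hyperplane `X = 0` is divisible by `X`: division with remainder by `X` as polynomials in
the variable `X_i` (leading coefficient the constant `conj v_i ≠ 0`) gives `h = X r + s`, `s` not involving
`X_i`; every point of `ℂ^m` can be moved along the `i`-th coordinate to the hyperplane without changing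
the value of `s`, so `s = 0`. (Alternatively: change coordinates linearly so that `X` becomes a variable.)
So `h = X r`. `∂_i h = conj v_i r + X ∂_i r`, so `r` vanishes on `X = 0`, `r = X r'`. -/
def G_DIV : Prop :=
  ∀ (m : ℕ) (β v : Fin m → ℂ), v ≠ 0 → ∀ h : MvPolynomial (Fin m) ℂ,
    (∀ η : Fin m → ℂ, ∑ i, (η i - β i) * conj (v i) = 0 →
      eval η h = 0 ∧ ∀ i, eval η (pderiv i h) = 0) → xp β v ^ 2 ∣ h

/-- **G_E** (the `κ` lemma). From `G_AJO`, `G_DIV`.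

PROOF. `A_j := A_j(v)`, `A_j = 0` for `j > d`, `∑ A_j t^j = f(z + t(v, v.conj β))`, `z = (β,a)`.
`c := ∑_(j<d) κ_j A_(j+1)`, `h := hq f β (conj a) c`, `h(η) = hf (g(η)) c`,
`g(η) = fv f η (∑ η_i conj β_i - conj a)`.
(1) Let `∑ (η_i - β_i) conj v_i = 0`. The point `Y := (η, e)`, `e := ∑ η_i conj β_i - conj a`, is
orthogonal to all `z + t(v, v.conj β)`: `e + conj(a + t v.conj β) = η.conj(β + t v)`. So
`hf (g(η)) (A_j) = 0` for all `j` (polynomial in `conj t`), hence `h(η) = 0`.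
(2) Let moreover `w ∈ ℂ^m`, `μ := ∑ w_i conj v_i`. For all `t, ε` the point
`(η + ε w, e + ε (w.conj β + conj t μ))` is orthogonal to `z + t(v, v.conj β)`:
`e + ε w.conj β + ε conj t μ + conj a + conj t conj v.β = (η + ε w).conj(β + t v)`, true by (1) and
`ε w.conj(β + t v) = ε w.conj β + ε conj t μ`. So `hf (f(η + ε w, e + ε(w.conj β + conj t μ))) (∑ A_j t^j)`
is `0`; it is a polynomial in `ε`; its derivative at `ε = 0` gives
`hf (G_w + conj t μ G_a) (∑ A_j t^j) = 0`, `G_w := ∑ w_i (∂_(β_i) f)(Y) + (w.conj β)(∂_a f)(Y)`, the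
derivative of `g` at `η` in the direction `w`, `G_a := (∂_a f)(Y)`. Coefficient of `conj t^(j+1)`:
`hf G_w A_(j+1) + μ hf G_a A_j = 0`, `j ≥ 0` (all polynomials in `conj t`). Multiply by `conj κ_j`,
`0 ≤ j ≤ d` (`A_(d+1) = 0`), and sum: `hf G_w c = - μ hf G_a (∑_(j≤d) κ_j A_j) = 0`. So the derivative of
`h` at `η` in every direction `w` is `0`.
(3) `G_DIV` gives the claim for `v ≠ 0`. For `v = 0`: `A_j = 0` for `j ≥ 1`, so the sum is the zero vector
and `hq = 0`. -/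
def G_E : Prop :=
  ∀ (m N d : ℕ) (f : Fin (N + 1) → MvPolynomial (Fin m ⊕ Unit) ℂ), SMap m N d f →
    ∀ (β : Fin m → ℂ) (a : ℂ), Null β a → ∀ (v : Fin m → ℂ) (κ : ℕ → ℂ),
    ∑ j ∈ range (d + 1), κ j • AJ f β a v j = 0 →
    xp β v ^ 2 ∣ hq f β (conj a) (∑ j ∈ range d, κ j • AJ f β a v (j + 1))

/-- **G_X** (a solution of the differential equation is not divisible by `X²`).

PROOF. `X := xp β v`; `v ≠ 0` by the last hypothesis; `X` is a linear polynomial, prime in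
`MvPolynomial (Fin m) ℂ` (irreducible: total degree 1). Suppose `h ≠ 0`, `h = X^k r`, `X ∤ r`, `k ≥ 2`.
`∂_i X = conj v_i`. For `i, j ≥ 1` (derivatives with respect to the variables `i-1`, `j-1`):
`D_i D_j (X^k r) ≡ k(k-1) X^(k-2) conj v_(i-1) conj v_(j-1) r mod X^(k-1)`, and if `i = 0` or `j = 0`,
`D_i D_j (X^k r) ≡ 0 mod X^(k-1)`. So `X^(k-1)` divides `k(k-1) X^(k-2) S r`,
`S := ∑ Q_(i+1,j+1) conj v_i conj v_j`, so `X ∣ S r`, `X ∣ S`; evaluate at `β`, where `X(β) = 0`: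
`S(β) = 0`, contradiction. -/
def G_X : Prop :=
  ∀ (m : ℕ) (β v : Fin m → ℂ) (Q : Fin (m + 1) → Fin (m + 1) → MvPolynomial (Fin m) ℂ)
    (h : MvPolynomial (Fin m) ℂ), ∑ i, ∑ j, Q i j * D1 i (D1 j h) = 0 → xp β v ^ 2 ∣ h →
    ∑ i : Fin m, ∑ j : Fin m, eval β (Q i.succ j.succ) * conj (v i) * conj (v j) ≠ 0 → h = 0

/-- **G_S** (shift argument, pure linear algebra).

PROOF. Let `K := {κ : Fin (d+1) → ℂ | ∑ κ_j A_j = 0}`, a finite dimensional space. For `κ ∈ K` there is a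
unique `λ(κ)` (as `A 0 ≠ 0`) with `∑_(j<d) κ_j A_(j+1) = λ A_0`; it is linear in `κ`, and
`T κ := (-λ(κ), κ_0, .., κ_(d-1)) ∈ K`. If `K ≠ 0`, `T` has an eigenvector `κ ≠ 0`, eigenvalue `e`
(`Module.End.exists_eigenvalue`). `e = 0`: `κ_0 = .. = κ_(d-1) = 0`, `κ_d A_d = 0`, so `A_d = 0`,
contradiction. `e ≠ 0`: `κ_(j-1) = e κ_j`, so `κ_j = e^(-j) κ_0`, `κ_0 ≠ 0`, `∑ e^(-j) A_j = 0`,
contradiction with the third hypothesis at `t = 1/e`. So `K = 0`. -/
def G_S : Prop :=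
  ∀ (d M : ℕ) (A : ℕ → Fin M → ℂ), A 0 ≠ 0 → A d ≠ 0 →
    (∀ t : ℂ, ∑ j ∈ range (d + 1), t ^ j • A j ≠ 0) →
    (∀ κ : ℕ → ℂ, ∑ j ∈ range (d + 1), κ j • A j = 0 →
      ∃ c : ℂ, ∑ j ∈ range d, κ j • A (j + 1) = c • A 0) →
    LinearIndependent ℂ fun j : Fin (d + 1) => A j

/-- **G_JET** (the 1-jets are independent). From `G_LD3`, `G_HF2`, `G_AJO`.

PROOF. Suppose `Q ≠ 0`. If `Q i.succ = 0` for all `i` then `Q 0 ≠ 0`, `Q 0 * gg f k = 0` for all `k`,
`gg f k = 0`, so `f k = 0` (every `(β, a)` is `(β, β.β' - b)` with `β' = 0`, `b = -a`), contradiction with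
`cop` (`r = 0`). So some `Q i₀.succ ≠ 0`, and some `gg f k₀ ≠ 0`. Let `(β, b)` be a real point
(`β' = conj β`, `a := conj b`, `Null β a`) at which `Q i₀.succ` and `gg f k₀` do not vanish,
`v_i := Q i.succ (value)`, so `v ≠ 0`. The value of `DD i.succ (gg f k)` at the real point is
`A_1(e_i) k` (`A_1` is linear in the direction: chain rule), so `A_1(v) = - Q_0 A_0`, `A_0 = fv f β a`.
Let `B(u,w) := hf (A_1(u)) (A_1(w))`, sesquilinear; `B(u,w) = 0` if `u . conj w = 0` (`G_AJO`),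
`B(v,v) = |Q_0|² hf A_0 A_0 = 0`. For any `u`: `u = α v + u'`, `u' . conj v = 0`,
`B(u,u) = |α|² B(v,v) + B(u',u')`; with `r > 0`, `|r v| = |u'|` (if `u' ≠ 0`), `r v + u'` and `r v - u'` are
orthogonal: `0 = B(rv + u', rv - u') = r² B(v,v) - B(u',u')`. So `B(u,u) = 0` for all `u`. By `G_HF2`
(`x = A_0 ≠ 0`, `y = A_1(u)`, `hf y x = 0` by `G_AJO`) `A_1(u) ∈ ℂ A_0` for all `u`. So at every real point
`Q i₀.succ * gg f k₀ * (gg f k * ∂_i gg f l - gg f l * ∂_i gg f k) = 0` for all `k, l, i`; by `G_LD3` and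
because `MvPolynomial` is a domain `gg f k * ∂_i gg f l = gg f l * ∂_i gg f k`. Now
`∂_(β_i) gg f k = (∂_i f_k)(β, ββ'-b) + β'_i (∂_a f_k)(β, ββ'-b)`. For fixed `(β, a)` and arbitrary `β'`
(`b := ββ' - a`) we get `f_k ∂_i f_l - f_l ∂_i f_k + β'_i (f_k ∂_a f_l - f_l ∂_a f_k) = 0` at `(β,a)`, so
both `f_k ∂_i f_l = f_l ∂_i f_k` and (`m ≥ 1`) `f_k ∂_a f_l = f_l ∂_a f_k`. So all `2×2` minors of
`(f_k, ∂ f_k)` vanish, which implies that the `f_k` are proportional to `f_(k₀)`: fix a point `x₀` with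
`f_(k₀)(x₀) ≠ 0`; on a line `x₀ + t y` the one variable polynomials `P := f_k`, `R := f_(k₀)` satisfy
`P' R = P R'`; `S := P - (P(0)/R(0)) R` satisfies `S' R = S R'`, `S(0) = 0`, `R(0) ≠ 0`, so `S = 0` (compare
orders of vanishing at `0`). So `f_k = c_k f_(k₀)`, `f_(k₀)` divides all `f_k`, so is a unit, all `f_k` are
constants, `totalDegree = 0 < d`: contradiction with `top`. -/
def G_JET : Prop :=
  ∀ (m N d : ℕ) (f : Fin (N + 1) → MvPolynomial (Fin m ⊕ Unit) ℂ), SMap m N d f → 1 ≤ m → 1 ≤ d →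
    ∀ Q : Fin (m + 1) → MvPolynomial (V3 m) ℂ,
      (∀ k, ∑ i, Q i * DD i (gg f k) = 0) → ∀ i, Q i = 0

/-- **G_PDE** (existence of a second order differential equation).

PROOF. Let `A := MvPolynomial (V3 m) ℂ` (a domain), `F̄ k ∈ A` be `f k` with conjugated coefficients in the
variables `(β', b)` (see `G_ORTH`); `gg f 0 * F̄ 0 - ∑ gg f j.succ * F̄ j.succ = 0` in `A` (evaluate at any
point `(β, β', b)`: `orth` at `(β, ββ'-b)`, `(conj β', conj b)`). `DD i` does not touch `F̄ k` (it does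
not involve `β`): `DD i (DD j (gg f 0)) * F̄ 0 - ∑ DD i (DD j (gg f l.succ)) * F̄ l.succ = 0` (*).
Some `F̄ k₀ ≠ 0` (some `f k₀ ≠ 0`, otherwise `cop` fails for `r = 0`). Unknowns `Q_(ij)`, `i ≤ j` in
`Fin (m+1)`: there are `(m+1)(m+2)/2 > N` of them. The `N` homogeneous linear equations
`∑_(i≤j) Q_(ij) DD i (DD j (gg f k)) = 0`, `k ≠ k₀`, have a solution `Q ≠ 0` in `A` (more unknowns than
equations over a domain: e.g. `Matrix.exists_mulVec_eq_zero_iff` for the square matrix completed by zero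
rows, or the fraction field and clearing denominators). By (*) `F̄ k₀` times the equation for `k₀` is a
combination of the others, so the equation for `k₀` holds as well. -/
def G_PDE : Prop :=
  ∀ (m N d : ℕ) (f : Fin (N + 1) → MvPolynomial (Fin m ⊕ Unit) ℂ), SMap m N d f →
    2 * N < (m + 1) * (m + 2) →
    ∃ Q : Fin (m + 1) → Fin (m + 1) → MvPolynomial (V3 m) ℂ,
      (∃ i j, Q i j ≠ 0) ∧ (∀ i j, j < i → Q i j = 0) ∧
      ∀ k, ∑ i, ∑ j, Q i j * DD i (DD j (gg f k)) = 0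

/-- **G_GOOD** (the good point). From `G_LD`, `G_BEZ`.

PROOF. `D(x,y)` from `G_BEZ` for `f` (`ι = Fin m ⊕ Unit`); `f k₁` of degree `d`, `H := homogeneousComponent d
(f k₁) ≠ 0`; some `gg f k₂ ≠ 0` (see `G_JET`). Polynomials in `(β,β',b)` and `(w,w')` (`κ = Fin m`,
`w = v`, `w' = conj v`): `P₁ := D((β, ββ'-b), (v, v.β'))`, `P₂ := H(v, v.β')`,
`P₃ := gg f k₂`, `P₄ := ∑_(i,j) Q (i+1) (j+1) w'_i w'_j`. Each is nonzero: `P₁`, `P₂`: every
`((β,a),(v,c))` with `v ≠ 0` is of the form `((β, ββ'-b),(v, v.β'))` (choose `β'` with `v.β' = c`, then `b`),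
and a nonzero polynomial does not vanish on all of `v ≠ 0` (multiply by a coordinate `v_i`; `m ≥ 1`); `P₄`:
the coefficients of the monomials `w'_i w'_j`, `i ≤ j`, are the `Q (i+1) (j+1)`, one of which is nonzero
(`Q i j = 0` for `j < i`). So `P₁P₂P₃P₄ ≠ 0` and by `G_LD` there are `β, b, v` with
`b + conj b = |β|²` and none of the four vanishes at `(β, conj β, b, v, conj v)`; `a := conj b`. Then
`P₁ ≠ 0`: `f(β + t v, a + t v.conj β) ≠ 0` for all `t`; `P₂ ≠ 0`: `A_d(v) k₁ = H(v, v.conj β) ≠ 0`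
(coefficient of `t^d` in `f_k(x + t y)` is `f_k^(d)(y)`); `P₃ ≠ 0`: `fv f β a ≠ 0`; `P₄ ≠ 0`: last claim. -/
def G_GOOD : Prop :=
  ∀ (m N d : ℕ) (f : Fin (N + 1) → MvPolynomial (Fin m ⊕ Unit) ℂ), SMap m N d f → 1 ≤ m →
    ∀ Q : Fin (m + 1) → Fin (m + 1) → MvPolynomial (V3 m) ℂ, (∀ i j, j < i → Q i j = 0) →
    (∃ i j : Fin m, Q i.succ j.succ ≠ 0) →
    ∃ (β : Fin m → ℂ) (a : ℂ) (v : Fin m → ℂ), Null β a ∧ fv f β a ≠ 0 ∧
      (∀ t : ℂ, fv f (fun i => β i + t * v i) (a + t * ∑ i, v i * conj (β i)) ≠ 0) ∧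
      AJ f β a v d ≠ 0 ∧
      ∑ i : Fin m, ∑ j : Fin m, eval (pt β (fun i => conj (β i)) (conj a)) (Q i.succ j.succ) *
        conj (v i) * conj (v j) ≠ 0

/-- **G_OB** (generic orthogonal basis).

PROOF. Prove by induction on `r`: if `W` is a subspace of `ℂ^m` (`Submodule ℂ (Fin m → ℂ)`) of dimension
`r` and `P` does not vanish identically on `W`, then there are `e_0, .., e_(r-1) ∈ W`, nonzero, pairwise
orthogonal (for `∑ x_l conj y_l`), with `P(e_i) ≠ 0`. `r = 0`: empty. `r ≥ 1`: there is `w ∈ W`, `w ≠ 0`,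
`P(w) ≠ 0` (if `P(0) ≠ 0` take `t e`, `e ≠ 0` in `W`, `t ≠ 0` small). `r = 1`: `e_0 = w`. `r ≥ 2`: there is
`0 ≠ u ∈ W` orthogonal to `w`. `u_t := u + t (w - u)`, `t → 0`; `t ↦ P(u_t)` is a polynomial in `t`, nonzero
at `t = 1`, so `P(u_t) ≠ 0` for all small `t ≠ 0`. `w_t := w - (<w,u_t>/<u_t,u_t>) u_t` is orthogonal to
`u_t` and tends to `w` as `t → 0`, so `P(w_t) ≠ 0` for small `t` (continuity). Take `e_0 := u_t` and apply
the induction hypothesis to `W' := {x ∈ W | x orthogonal to u_t}`, of dimension `r - 1`, `w_t ∈ W'`.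
(Any other proof is fine, e.g. with `EuclideanSpace ℂ (Fin m)` and orthogonal complements.) -/
def G_OB : Prop :=
  ∀ (m : ℕ) (P : MvPolynomial (Fin m) ℂ), P ≠ 0 →
    ∃ e : Fin m → Fin m → ℂ, (∀ i j, i ≠ j → ∑ l, e i l * conj (e j l) = 0) ∧ (∀ i, e i ≠ 0) ∧
      ∀ i, eval (e i) P ≠ 0

/-- **G_CNT** (count). From `G_HF2`, `G_AJO`, `G_OB`.

PROOF. `A_0 := fv f β a ≠ 0`, `hf A_0 A_0 = 0` (`orth`). The entries of `A_j(v)` are polynomials in `v`
(coefficients of `t^j` of `f_k(β + t v, a + t v.conj β)`). As `A_0, A_1(v₀), .., A_d(v₀)` are independent there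
is a linear map `π : ℂ^(N+1) → ℂ^(d+1)` sending them to a basis; `P(v) := det (π A_j(v))` is a polynomial in
`v`, `P(v₀) ≠ 0`. `G_OB`: orthogonal basis `e_i` with `P(e_i) ≠ 0`, so `A_0, A_1(e_i), .., A_d(e_i)` are
independent for every `i`. CLAIM: the `md + 1` vectors `A_0`, `A_j(e_i)` (`i < m`, `1 ≤ j ≤ d`) are
independent. Let `w_i := ∑_j c_(ij) A_j(e_i)`, `∑_i w_i = c_0 A_0`. `hf w_i w_l = 0` for `i ≠ l` and
`hf w_i A_0 = 0` (`G_AJO`), so `hf w_i w_i = hf w_i (∑ w_l) = hf w_i (c_0 A_0) = 0`; by `G_HF2` `w_i ∈ ℂ A_0`, so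
`w_i = 0`, `c_(ij) = 0`, `c_0 = 0`. All of them lie in `{x | hf x A_0 = 0}`, which is a proper subspace
(`A_0 ≠ 0`, the form is nondegenerate), of dimension `≤ N`. So `md + 1 ≤ N`. -/
def G_CNT : Prop :=
  ∀ (m N d : ℕ) (f : Fin (N + 1) → MvPolynomial (Fin m ⊕ Unit) ℂ), SMap m N d f →
    ∀ (β : Fin m → ℂ) (a : ℂ), Null β a → fv f β a ≠ 0 → ∀ v₀ : Fin m → ℂ,
    LinearIndependent ℂ (fun j : Fin (d + 1) => AJ f β a v₀ j) → m * d + 1 ≤ N

end Pool.Agent.Helper69.DC
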