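import Mathlib
import Pool.Agent.Helper28.Ball.Mono
import Pool.Agent.Helper28.Ball.Families
import Pool.Agent.Helper69.DC.Defs
import Pool.Agent.Helper69.DC.Goals

/-!
Assembly: the degree bound from the goals.
-/

namespace Pool.Agent.Helper69.DC

open MvPolynomial Finset ComplexConjugate Pool.Agent.Helper28.Ball

lemma hf_add_left {N : ℕ} (x y z : Fin (N + 1) → ℂ) : hf (x + y) z = hf x z + hf y z := by
  simp only [hf, Pi.add_apply, add_mul, Finset.sum_add_distrib]
  ring

lemma hf_smul_left {N : ℕ} (c : ℂ) (x z : Fin (N + 1) → ℂ) : hf (c • x) z = c * hf x z := by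
  simp only [hf, Pi.smul_apply, smul_eq_mul, mul_sub, Finset.mul_sum, mul_assoc]

lemma hf_zero_left {N : ℕ} (z : Fin (N + 1) → ℂ) : hf 0 z = 0 := by
  simp [hf]

lemma hf_sum_left {N : ℕ} {ι : Type*} (s : Finset ι) (x : ι → Fin (N + 1) → ℂ)
    (z : Fin (N + 1) → ℂ) : hf (∑ i ∈ s, x i) z = ∑ i ∈ s, hf (x i) z := by
  classical
  induction s using Finset.induction_on with
  | empty => simp [hf_zero_left]
  | insert i s hi ih => rw [Finset.sum_insert hi, Finset.sum_insert hi, hf_add_left, ih]

lemma spec_gg {m N : ℕ} (f : Fin (N + 1) → MvPolynomial (Fin m ⊕ Unit) ℂ) (β : Fin m → ℂ) (b : ℂ)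
    (k : Fin (N + 1)) : spec β b (gg f k) = gp f β b k := by
  unfold gg gp spec
  rw [← AlgHom.comp_apply]
  congr 1
  apply MvPolynomial.algHom_ext
  rintro (i | i)
  · simp
  · simp only [AlgHom.comp_apply, aeval_X, Sum.elim_inr, map_sub, map_sum, map_mul, Sum.elim_inl]
    congr 1
    exact Finset.sum_congr rfl fun i _ => mul_comm _ _

lemma spec_pderiv {m : ℕ} (β : Fin m → ℂ) (b : ℂ) (i : Fin m) (P : MvPolynomial (V3 m) ℂ) :
    spec β b (pderiv (Sum.inl i) P) = pderiv i (spec β b P) := by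
  induction P using MvPolynomial.induction_on with
  | C a => simp [spec]
  | add p q hp hq => simp only [map_add, hp, hq]
  | mul_X p j hp =>
    rw [Derivation.leibniz, map_add, map_mul, Derivation.leibniz]
    simp only [smul_eq_mul, map_mul, hp]
    congr 1
    rcases j with j | j | j
    · simp only [spec, aeval_X, Sum.elim_inl]
      by_cases h : j = i
      · subst h; simp
      · rw [pderiv_X_of_ne (by simpa using h), pderiv_X_of_ne h, map_zero]
    · simp only [spec, aeval_X, Sum.elim_inl, Sum.elim_inr, pderiv_C]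
      rw [pderiv_X_of_ne (by simp), map_zero]
    · simp only [spec, aeval_X, Sum.elim_inr, pderiv_C]
      rw [pderiv_X_of_ne (by simp), map_zero]

lemma spec_DD {m : ℕ} (β : Fin m → ℂ) (b : ℂ) (i : Fin (m + 1)) (P : MvPolynomial (V3 m) ℂ) :
    spec β b (DD i P) = D1 i (spec β b P) := by
  refine Fin.cases ?_ (fun i => ?_) i
  · simp [DD, D1]
  · simp [DD, D1, spec_pderiv]

lemma D1_sub {m : ℕ} (i : Fin (m + 1)) (P Q : MvPolynomial (Fin m) ℂ) :
    D1 i (P - Q) = D1 i P - D1 i Q := by
  refine Fin.cases ?_ (fun i => ?_) i <;> simp [D1]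

lemma D1_C_mul {m : ℕ} (i : Fin (m + 1)) (c : ℂ) (P : MvPolynomial (Fin m) ℂ) :
    D1 i (C c * P) = C c * D1 i P := by
  refine Fin.cases ?_ (fun i => ?_) i <;> simp [D1]

lemma D1_sum {m : ℕ} {ι : Type*} (s : Finset ι) (i : Fin (m + 1))
    (P : ι → MvPolynomial (Fin m) ℂ) : D1 i (∑ j ∈ s, P j) = ∑ j ∈ s, D1 i (P j) := by
  refine Fin.cases ?_ (fun i => ?_) i <;> simp [D1]

lemma eval_spec {m : ℕ} (β : Fin m → ℂ) (b : ℂ) (P : MvPolynomial (V3 m) ℂ) (η : Fin m → ℂ) :
    eval η (spec β b P) = eval (pt η (fun i => conj (β i)) b) P := by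
  induction P using MvPolynomial.induction_on with
  | C a => simp [spec]
  | add p q hp hq => simp only [map_add, hp, hq]
  | mul_X p j hp =>
    simp only [map_mul, hp, eval_X]
    congr 1
    rcases j with j | j | j <;> simp [spec, pt]

lemma eval_gp {m N : ℕ} (f : Fin (N + 1) → MvPolynomial (Fin m ⊕ Unit) ℂ) (β : Fin m → ℂ) (b : ℂ)
    (k : Fin (N + 1)) (η : Fin m → ℂ) :
    eval η (gp f β b k) = fv f η (∑ i, conj (β i) * η i - b) k := by
  unfold gp fv
  generalize f k = P
  induction P using MvPolynomial.induction_on with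
  | C a => simp
  | add p q hp hq => simp only [map_add, hp, hq]
  | mul_X p j hp =>
    simp only [map_mul, hp, eval_X]
    congr 1
    rcases j with j | j <;> simp

lemma eval_hq {m N : ℕ} (f : Fin (N + 1) → MvPolynomial (Fin m ⊕ Unit) ℂ) (β : Fin m → ℂ) (b : ℂ)
    (c : Fin (N + 1) → ℂ) (η : Fin m → ℂ) :
    eval η (hq f β b c) = hf (fv f η (∑ i, conj (β i) * η i - b)) c := by
  unfold hq hf
  simp only [map_sub, map_mul, map_sum, eval_C, eval_gp]
  congr 1
  · ring
  · exact Finset.sum_congr rfl fun i _ => mul_comm _ _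

/-- a polynomial in `t` with values in a vector space -/
lemma coeffs_zero {d : ℕ} (a : ℕ → ℂ) (h : ∀ t : ℂ, ∑ j ∈ range (d + 1), t ^ j * a j = 0) :
    ∀ j ≤ d, a j = 0 := by
  let P : Polynomial ℂ := ∑ j ∈ range (d + 1), Polynomial.C (a j) * Polynomial.X ^ j
  have hP : P = 0 := by
    apply Polynomial.funext
    intro t
    simp only [P, Polynomial.eval_finset_sum, Polynomial.eval_mul, Polynomial.eval_C,
      Polynomial.eval_pow, Polynomial.eval_X, Polynomial.eval_zero]
    rw [← h t]
    exact Finset.sum_congr rfl fun j _ => mul_comm _ _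
  intro j hj
  have h1 : P.coeff j = a j := by
    simp only [P, Polynomial.finset_sum_coeff, Polynomial.coeff_C_mul, Polynomial.coeff_X_pow]
    rw [Finset.sum_eq_single j]
    · simp
    · intro i _ hi
      rw [if_neg (Ne.symm hi), mul_zero]
    · intro h'
      exact absurd (Finset.mem_range.2 (by omega)) h'
  rw [← h1, hP, Polynomial.coeff_zero]

theorem siegel_bound (hHF2 : G_HF2) (hAJO : G_AJO) (hE : G_E) (hX : G_X) (hS : G_S)
    (hJET : G_JET) (hPDE : G_PDE) (hGOOD : G_GOOD) (hCNT : G_CNT)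
    {m N d : ℕ} (f : Fin (N + 1) → MvPolynomial (Fin m ⊕ Unit) ℂ) (hf' : SMap m N d f)
    (hm : 1 ≤ m) (hd : 1 ≤ d) (hN : 2 * N < (m + 1) * (m + 2)) : m * d + 1 ≤ N := by
  obtain ⟨Q, ⟨i0, j0, hQ0⟩, hQ1, hQ2⟩ := hPDE m N d f hf' hN
  have hQs : ∃ i j : Fin m, Q i.succ j.succ ≠ 0 := by
    by_contra hcon
    push Not at hcon
    have h1 : ∀ k, ∑ j, Q 0 j * DD j (gg f k) = 0 := by
      intro k
      have := hQ2 k
      rw [Fin.sum_univ_succ] at this
      have h2 : ∑ i : Fin m, ∑ j, Q i.succ j * DD i.succ (DD j (gg f k)) = 0 := by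
        refine Finset.sum_eq_zero fun i _ => ?_
        rw [Fin.sum_univ_succ, hQ1 i.succ 0 (Fin.succ_pos i), zero_mul, zero_add]
        exact Finset.sum_eq_zero fun j _ => by rw [hcon i j, zero_mul]
      rw [h2, add_zero] at this
      rw [← this]
      exact Finset.sum_congr rfl fun j _ => by simp [DD]
    have h3 := hJET m N d f hf' hm hd (fun j => Q 0 j) h1
    apply hQ0
    revert j0
    refine Fin.cases ?_ (fun i => ?_) i0
    · intro j0 _
      exact h3 j0
    · intro j0
      refine Fin.cases ?_ (fun j => ?_) j0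
      · intro _
        exact hQ1 i.succ 0 (Fin.succ_pos i)
      · intro _
        exact hcon i j
  obtain ⟨β, a, v, hnull, hA0, hzf, hAd, hqh⟩ := hGOOD m N d f hf' hm Q hQ1 hQs
  obtain ⟨hO1, hO2, hO3, hO4, hO5⟩ := hAJO m N d f hf' β a hnull
  have hlin : LinearIndependent ℂ (fun j : Fin (d + 1) => AJ f β a v j) := by
    apply hS d (N + 1) (fun j => AJ f β a v j)
    · show AJ f β a v 0 ≠ 0
      rw [hO3 v]
      exact hA0
    · exact hAd
    · intro t
      have := hzf t
      rwa [← hO5 v t] at this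
    · intro κ hκ
      set c := ∑ j ∈ range d, κ j • AJ f β a v (j + 1) with hc
      have hdiv := hE m N d f hf' β a hnull v κ hκ
      have hpde : ∑ i, ∑ j, spec β (conj a) (Q i j) *
          D1 i (D1 j (hq f β (conj a) c)) = 0 := by
        have h1 : ∀ k, ∑ i, ∑ j, spec β (conj a) (Q i j) *
            D1 i (D1 j (gp f β (conj a) k)) = 0 := by
          intro k
          have := congrArg (spec β (conj a)) (hQ2 k)
          simpa only [map_sum, map_mul, spec_DD, spec_gg, map_zero] using this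
        have h2 : ∀ i j, D1 i (D1 j (hq f β (conj a) c)) =
            C (conj (c 0)) * D1 i (D1 j (gp f β (conj a) 0)) -
            ∑ l : Fin N, C (conj (c l.succ)) * D1 i (D1 j (gp f β (conj a) l.succ)) := by
          intro i j
          simp only [hq, D1_sub, D1_sum, D1_C_mul]
        simp only [h2, mul_sub, Finset.sum_sub_distrib, Finset.mul_sum]
        have h3 : ∑ i, ∑ j, spec β (conj a) (Q i j) *
            (C (conj (c 0)) * D1 i (D1 j (gp f β (conj a) 0))) = 0 := by
          have : ∑ i, ∑ j, spec β (conj a) (Q i j) *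
            (C (conj (c 0)) * D1 i (D1 j (gp f β (conj a) 0))) = C (conj (c 0)) *
              ∑ i, ∑ j, spec β (conj a) (Q i j) * D1 i (D1 j (gp f β (conj a) 0)) := by
            simp only [Finset.mul_sum]
            exact Finset.sum_congr rfl fun i _ => Finset.sum_congr rfl fun j _ => by ring
          rw [this, h1, mul_zero]
        rw [h3, zero_sub, neg_eq_zero]
        have h4 : ∑ i : Fin (m + 1), ∑ j : Fin (m + 1), ∑ l : Fin N,
            spec β (conj a) (Q i j) *
              (C (conj (c l.succ)) * D1 i (D1 j (gp f β (conj a) l.succ))) =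
            ∑ l : Fin N, C (conj (c l.succ)) *
              ∑ i, ∑ j, spec β (conj a) (Q i j) * D1 i (D1 j (gp f β (conj a) l.succ)) := by
          simp only [Finset.mul_sum]
          rw [Finset.sum_comm' (t' := Finset.univ) (s' := fun _ => Finset.univ) (by simp)]
          have h5 : ∀ i : Fin (m + 1), ∑ j : Fin (m + 1), ∑ l : Fin N,
              spec β (conj a) (Q i j) *
                (C (conj (c l.succ)) * D1 i (D1 j (gp f β (conj a) l.succ))) =
              ∑ l : Fin N, ∑ j : Fin (m + 1), spec β (conj a) (Q i j) *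
                (C (conj (c l.succ)) * D1 i (D1 j (gp f β (conj a) l.succ))) :=
            fun i => Finset.sum_comm
          rw [Finset.sum_comm]
          rw [Finset.sum_congr rfl fun i _ => h5 i, Finset.sum_comm]
          refine Finset.sum_congr rfl fun l _ => Finset.sum_congr rfl fun i _ =>
            Finset.sum_congr rfl fun j _ => by ring
        rw [h4]
        exact Finset.sum_eq_zero fun l _ => by rw [h1, mul_zero]
      have hh0 : hq f β (conj a) c = 0 := by
        apply hX m β v (fun i j => spec β (conj a) (Q i j)) _ hpde hdiv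
        simpa only [eval_spec] using hqh
      have hη : ∀ t : ℂ, ∑ j ∈ range (d + 1), t ^ j * hf (AJ f β a v j) c = 0 := by
        intro t
        have h1 := congrArg (eval fun i => β i + t * v i) hh0
        rw [eval_hq, map_zero] at h1
        have h2 : ∑ i, conj (β i) * (β i + t * v i) - conj a = a + t * ∑ i, v i * conj (β i) := by
          have h3 : ∑ i, conj (β i) * (β i + t * v i) =
              ∑ i, β i * conj (β i) + t * ∑ i, v i * conj (β i) := by
            rw [Finset.mul_sum, ← Finset.sum_add_distrib]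
            exact Finset.sum_congr rfl fun i _ => by ring
          rw [h3, ← hnull]
          ring
        rw [h2, ← hO5 v t, hf_sum_left] at h1
        simpa only [hf_smul_left] using h1
      have hAc := coeffs_zero _ hη
      have hcc : hf c c = 0 := by
        conv_lhs => rw [hc]
        rw [hf_sum_left]
        refine Finset.sum_eq_zero fun j hj => ?_
        rw [hf_smul_left, ← hc, hAc (j + 1) (by have := Finset.mem_range.1 hj; omega), mul_zero]
      have hc0 : hf c (fv f β a) = 0 := by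
        conv_lhs => rw [hc]
        rw [hf_sum_left]
        refine Finset.sum_eq_zero fun j hj => ?_
        rw [hf_smul_left, hO2, mul_zero]
      obtain ⟨l, hl⟩ := hHF2 N (fv f β a) c hA0 (hf'.orth β a β a hnull) hcc hc0
      refine ⟨l, ?_⟩
      show c = l • AJ f β a v 0
      rw [hO3 v, hl]
  exact hCNT m N d f hf' β a hnull hA0 v hlin

theorem bound_of (hHF2 : G_HF2) (hAJO : G_AJO) (hE : G_E) (hX : G_X) (hS : G_S)
    (hJET : G_JET) (hPDE : G_PDE) (hGOOD : G_GOOD) (hCNT : G_CNT) (hCAY : G_CAY)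
    (n N d : ℕ) (hn : 2 ≤ n) (hN : 2 * N < n * (n + 1)) (hd : 1 ≤ d)
    (p : Fin N → MvPolynomial (Fin n) ℂ) (q : MvPolynomial (Fin n) ℂ)
    (hf : IsProperMap p q) (hdeg : mapDegree p q = d) : (n - 1) * d + 1 ≤ N := by
  obtain ⟨m, rfl⟩ : ∃ m, n = m + 1 := ⟨n - 1, by omega⟩
  obtain ⟨f, hf'⟩ := hCAY m N d p q hf hdeg
  rw [Nat.add_sub_cancel]
  exact siegel_bound hHF2 hAJO hE hX hS hJET hPDE hGOOD hCNT f hf' (by omega) hd hN

theorem descent_of (hHF2 : G_HF2) (hAJO : G_AJO) (hE : G_E) (hX : G_X) (hS : G_S)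
    (hJET : G_JET) (hPDE : G_PDE) (hGOOD : G_GOOD) (hCNT : G_CNT) (hCAY : G_CAY)
    (n N d : ℕ) (hn : 2 ≤ n) (hN : 2 * N < n * (n + 1)) (hd : 1 < d)
    (p : Fin N → MvPolynomial (Fin n) ℂ) (q : MvPolynomial (Fin n) ℂ)
    (hf : IsProperMap p q) (hdeg : mapDegree p q = d) :
    ∃ p' : Fin N → MvPolynomial (Fin n) ℂ, IsProperMap p' 1 ∧
      (∀ j, ∃ (α : Fin n →₀ ℕ) (c : ℂ), p' j = monomial α c) ∧ mapDegree p' 1 = d - 1 := by
  have h1 := bound_of hHF2 hAJO hE hX hS hJET hPDE hGOOD hCNT hCAY n N d hn hN (by omega) p q hf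
    hdeg
  obtain ⟨m, rfl⟩ : ∃ m, n = m + 1 := ⟨n - 1, by omega⟩
  rw [Nat.add_sub_cancel] at h1
  apply whitney (by omega)
  have h3 : m * d = m * (d - 1) + m := by
    obtain ⟨e, rfl⟩ : ∃ e, d = e + 1 := ⟨d - 1, by omega⟩
    rw [Nat.add_sub_cancel]
    ring
  omega

end Pool.Agent.Helper69.DC
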