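import Mathlib
import Pool.Agent.Helper69.DC.Defs

/-!
Definitions for differential equations of higher order (second stage).
-/

namespace Pool.Agent.Helper69.DC

open MvPolynomial Finset ComplexConjugate

/-- The pairing `P(∂_τ) G` at `τ = 0`: `∑_α P_α α! G_α`, for polynomials in `m` variables over a
commutative ring. -/
noncomputable def pr {m : ℕ} {R : Type*} [CommRing R] (P G : MvPolynomial (Fin m) R) : R :=
  ∑ α ∈ P.support, P.coeff α * ((∏ i, (α i).factorial : ℕ) : R) * G.coeff α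

/-- Taylor expansion `h(β + τ)` of a polynomial `h` in `β`, as a polynomial in `τ`. -/
noncomputable def tay1 {m : ℕ} :
    MvPolynomial (Fin m) ℂ →ₐ[ℂ] MvPolynomial (Fin m) (MvPolynomial (Fin m) ℂ) :=
  aeval fun i => C (X i) + X i

/-- Taylor expansion in `β` of a polynomial in `(β, β', b)`, as a polynomial in `τ`. -/
noncomputable def tay3 {m : ℕ} :
    MvPolynomial (V3 m) ℂ →ₐ[ℂ] MvPolynomial (Fin m) (MvPolynomial (V3 m) ℂ) :=
  aeval (Sum.elim (fun i => C (X (Sum.inl i)) + X i) fun j => C (X (Sum.inr j)))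

/-- The differential operator `P(∂_β)` with coefficients polynomial in `(β, β', b)` annihilates all
`gg f k`. -/
def IsPDE {m N : ℕ} (f : Fin (N + 1) → MvPolynomial (Fin m ⊕ Unit) ℂ)
    (P : MvPolynomial (Fin m) (MvPolynomial (V3 m) ℂ)) : Prop :=
  ∀ k, pr P (tay3 (gg f k)) = 0

/-- Inclusion of the coefficients `(β, β', b)` into the coefficients `(β, β', b, e)`. -/
noncomputable def inc {m : ℕ} : MvPolynomial (V3 m) ℂ →+* MvPolynomial (V3 m ⊕ Fin m) ℂ :=
  (rename Sum.inl : MvPolynomial (V3 m) ℂ →ₐ[ℂ] MvPolynomial (V3 m ⊕ Fin m) ℂ).toRingHom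

/-- The same for coefficients polynomial in `(β, β', b, e)`, `e` a vector of `m` parameters. -/
def IsPDE4 {m N : ℕ} (f : Fin (N + 1) → MvPolynomial (Fin m ⊕ Unit) ℂ)
    (P : MvPolynomial (Fin m) (MvPolynomial (V3 m ⊕ Fin m) ℂ)) : Prop :=
  ∀ k, pr P (MvPolynomial.map inc (tay3 (gg f k))) = 0

/-- The symbol `∑ e_j y_j` of the derivative in the direction `e`. -/
noncomputable def eY {m : ℕ} : MvPolynomial (Fin m) (MvPolynomial (V3 m ⊕ Fin m) ℂ) :=
  ∑ j, C (X (Sum.inr j)) * X j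

/-- The symbol `∑ e_j y_j` for a constant vector `e`. -/
noncomputable def eC {m : ℕ} (e : Fin m → ℂ) : MvPolynomial (Fin m) (MvPolynomial (Fin m) ℂ) :=
  ∑ j, C (C (e j)) * X j

/-- Specialisation `β' = conj β₀`, `b = b₀`, `e = e₀`; `β` stays variable. -/
noncomputable def spec4 {m : ℕ} (β₀ : Fin m → ℂ) (b₀ : ℂ) (e₀ : Fin m → ℂ) :
    MvPolynomial (V3 m ⊕ Fin m) ℂ →ₐ[ℂ] MvPolynomial (Fin m) ℂ :=
  aeval (Sum.elim (Sum.elim (fun i => X i) (Sum.elim (fun i => C (conj (β₀ i))) fun _ => C b₀))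
    fun j => C (e₀ j))

/-- Value of a polynomial in `y` with polynomial coefficients at a constant vector `w`. -/
noncomputable def ev2 {m : ℕ} {τ : Type*} (w : Fin m → ℂ)
    (P : MvPolynomial (Fin m) (MvPolynomial τ ℂ)) : MvPolynomial τ ℂ :=
  eval (fun i => C (w i)) P

end Pool.Agent.Helper69.DC
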