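import Mathlib
import Pool.Agent.Helper28.Ball.Mono
import Pool.Agent.Helper69.DC.Defs
import Pool.Agent.Helper69.DC.Defs2

/-!
Goals (packets) of the second stage: the degree bound `(n-1)d ≤ a(N-1)` for `N < C(n+a, a+1)` and the
degree descent for `N < n²`.
-/

namespace Pool.Agent.Helper69.DC

open MvPolynomial Finset ComplexConjugate Pool.Agent.Helper28.Ball

/-- **H_TX** (a solution of a differential equation of order `J` is not divisible by `X^J`).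

PROOF. `R := MvPolynomial (Fin m) ℂ` (polynomials in `β`), `X := xp β v ∈ R`. If `J = 0`: `P` is a constant
`C p₀` (`totalDegree ≤ 0`), `pr P (tay1 h) = p₀ h` (constant coefficient of `tay1 h` is `h`), `p₀(β) ≠ 0`, so
`h = 0`. Let `J ≥ 1`; then `v ≠ 0` (the symbol, homogeneous of degree `J`, vanishes at `0`), so `X` has total
degree `1` and is prime (`MvPolynomial.irreducible_of_totalDegree_eq_one`, UFD; see also
`Pool/Agent/Helper13/DC/X.lean`). Suppose `h ≠ 0`, `h = X^k r`, `X ∤ r`, `k ≥ J`.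
`tay1 X = C X + ξ`, `ξ := ∑ C (C (conj v_i)) X_i` (linear in `τ`), so
`tay1 h = (C X + ξ)^k tay1 r = ∑_l C(k,l) C(X)^(k-l) ξ^l tay1 r`. `ξ^l` is homogeneous of degree `l` in `τ`, so
coefficients of `τ^α`, `|α| ≤ J`, only see `l ≤ |α| ≤ J`; all terms with `l < J` are divisible by
`X^(k-J+1)`; the term `l = J` contributes only for `|α| = J`, with the constant coefficient `r` of
`tay1 r`. So modulo `X^(k-J+1)`: `pr P (tay1 h) ≡ C(k,J) X^(k-J) r ∑_(|α|=J) P_α α! [τ^α] ξ^J`, and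
`α! [τ^α] ξ^J = J! ∏ (conj v_i)^(α_i)` (multinomial), so the sum is `J! S`,
`S := eval (conj v) (homogeneousComponent J P) ∈ R`. So `X^(k-J+1)` divides `k(k-1)..(k-J+1) X^(k-J) r S`, so
`X ∣ r S`, `X ∣ S`, but `X(β) = 0`, `S(β) ≠ 0`: contradiction. -/
def H_TX : Prop :=
  ∀ (m J : ℕ) (β v : Fin m → ℂ) (P : MvPolynomial (Fin m) (MvPolynomial (Fin m) ℂ))
    (h : MvPolynomial (Fin m) ℂ), P.totalDegree ≤ J → pr P (tay1 h) = 0 → xp β v ^ J ∣ h →
    eval β (ev2 (fun i => conj (v i)) (homogeneousComponent J P)) ≠ 0 → h = 0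

/-- **H_TQ** (the differential equation along the hyperplane `X = 0`).

PROOF. Notation of `H_TX`. `tay1 (X² b) = (C X + ξ)² tay1 b ≡ ξ² tay1 b` modulo `C X`. `e . conj v = 0` says
that `∂_e ξ = 0` where `∂_e := ∑ C (C e_j) ∂/∂τ_j`. The pairing has the adjointness property
`pr (eC e * q) G = pr q (∂_e G)` (as `(α + ε_j)! = (α_j + 1) α!`), and for homogeneous `q` of degree `2` only the
degree `2` part of `G` matters. Degree `3` part of `ξ² tay1 b` is `ξ² L`, `L := ∑ C (∂_j b) X_j`, so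
`pr (eC e * q) (ξ² tay1 b) = pr q (∂_e (ξ² L)) = pr q (ξ² C (∂_e b)) = 2 q(conj v) ∂_e b`,
`∂_e b = ∑ e_j ∂_j b` (for homogeneous `q` of degree `2`, `pr q ξ² = 2 q(conj v)`). `P₂` has total degree
`≤ 2`, `ξ² tay1 b` begins in degree `2` with `ξ² C b`, so `pr P₂ (ξ² tay1 b) = 2 b P₂₂(conj v)`, `P₂₂` the
homogeneous component of degree `2`. So `0 ≡ 2 (q(conj v) ∂_e b + P₂₂(conj v) b)` modulo `X`. -/
def H_TQ : Prop :=
  ∀ (m : ℕ) (β v e : Fin m → ℂ) (q P₂ : MvPolynomial (Fin m) (MvPolynomial (Fin m) ℂ))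
    (b : MvPolynomial (Fin m) ℂ), ∑ i, e i * conj (v i) = 0 → q.IsHomogeneous 2 →
    P₂.totalDegree ≤ 2 → pr (eC e * q + P₂) (tay1 (xp β v ^ 2 * b)) = 0 →
    xp β v ∣ ev2 (fun i => conj (v i)) q * (∑ j, C (e j) * pderiv j b) +
      ev2 (fun i => conj (v i)) (homogeneousComponent 2 P₂) * b

/-- **H_WR** (functions with vanishing Wronskians on a hyperplane are proportional).

PROOF. `X := xp β v`, `v ≠ 0`; for a polynomial `p`, `X ∣ p` iff `p` vanishes on the hyperplane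
`T := {η | ∑ (η_i - β_i) conj v_i = 0}` (see `Pool/Agent/Helper81/DC/DIV.lean`). Choose `τ₀ ∈ T` with
`b₁(τ₀) ≠ 0`, `c := b₂(τ₀)/b₁(τ₀)`. Let `τ ∈ T`, `e := τ - τ₀`, so `∑ e_i conj v_i = 0`. The one variable
polynomials `p_i(t) := b_i(τ₀ + t e)` satisfy `p₁ p₂' - p₂ p₁' = 0` (the point stays in `T`). `s := p₂ - c p₁`
satisfies `p₁ s' = s p₁'`, `s(0) = 0`, `p₁(0) ≠ 0`; comparing orders of vanishing at `0`, `s = 0`. So
`b₂(τ) = c b₁(τ)`. -/
def H_WR : Prop :=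
  ∀ (m : ℕ) (β v : Fin m → ℂ) (b₁ b₂ : MvPolynomial (Fin m) ℂ), v ≠ 0 → ¬ xp β v ∣ b₁ →
    (∀ e : Fin m → ℂ, ∑ i, e i * conj (v i) = 0 →
      xp β v ∣ b₁ * (∑ j, C (e j) * pderiv j b₂) - b₂ * (∑ j, C (e j) * pderiv j b₁)) →
    ∃ c : ℂ, xp β v ∣ b₂ - C c * b₁

/-- **H_EI** (the `κ` lemma with `q` windows). Known: `G_AJO` (also `Pool/Agent/Helper33/DC/E.lean` for `q = 1`).

PROOF. `z = (β,a)`, `c := ∑ v_i conj β_i`. If `v = 0` all `A_(j+1) = 0`, `hq = 0`. Let `v ≠ 0`. Ring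
`B := MvPolynomial (Fin m ⊕ Unit) ℂ` (variables `η_i`, `e`),
`S_j := f_0 C(conj (A_j 0)) - ∑_k f_(k+1) C(conj (A_j (k+1))) ∈ B`,
`ℓ₀ := e + C(conj a) - ∑ C(conj β_i) η_i`, `ℓ₁ := C(conj c) - ∑ C(conj v_i) η_i`. By `orth`:
(*) if `ℓ₀(Y) + s ℓ₁(Y) = 0` then `∑_j s^j S_j(Y) = 0` (`s = conj t`: `Y = (η,e)` is orthogonal to
`(β + t v, a + t c)`, and `fv f` of the latter is `∑ A_j t^j`, `G_AJO`).
CLAIM: there are `R_j ∈ B`, `R_j = 0` for `j ≥ d`, with `S_j = ℓ₀ R_j + ℓ₁ R_(j-1)` (`R_(-1) = 0`), `j ≤ d`.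
Proof: in `B[T]` (`Polynomial B`) let `ψ : B → B[T]` be the `ℂ`-algebra hom `η_i ↦ η_i`,
`e ↦ e_* := e - (ℓ₀ + T ℓ₁)` (`= ∑ conj β_i η_i - conj a - T ℓ₁`, which does not involve `e`). For every
`p ∈ B`, `ℓ₀ + T ℓ₁` divides `C p - ψ p` in `B[T]` (induction on `p`). Let
`Σ := ∑_j C(S_j) T^j = ∑_k ± (∑_j conj(A_j k) T^j) C(f_k)`. `∑_k ± (∑_j conj(A_j k) T^j) ψ(f_k) = 0` because its
values at all `(η, T)` are `0` by (*). So `ℓ₀ + T ℓ₁` divides `Σ`, `Σ = (ℓ₀ + T ℓ₁) R`, `R ∈ B[T]` has degree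
`≤ d - 1` (`ℓ₁ ≠ 0`, `B` a domain, `Σ` has degree `≤ d`) (if `d = 0`: `R = 0`). Compare coefficients of `T^j`.
Let `ρ_l := ∑_(j<d) C(conj κ_(j+l)) R_j`. For `l < q`: `0 = ∑_(j≤d) conj κ_(j+l) S_j = ℓ₀ ρ_l + ℓ₁ ρ_(l+1)`
(hypothesis: `∑_j κ_(j+l) A_j = 0`). So `ℓ₀^q ρ_0 = (-ℓ₁)^q ρ_q`, so `ℓ₁^q ∣ ρ_0` (`ℓ₁` is irreducible of total
degree `1`, does not divide `ℓ₀`, which has the term `e`). Let `φ : B → MvPolynomial (Fin m) ℂ` be the
substitution `η_i ↦ X_i`, `e ↦ ∑ C(conj β_i) X_i - C(conj a)` (so `φ(f_k) = gp f β (conj a) k`, `φ(ℓ₀) = 0`,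
`φ(ℓ₁) = - xp β v`, as `conj c = ∑ β_i conj v_i`). `hq f β (conj a) (∑_(j<d) κ_j A_(j+1)) =
φ(∑_(j<d) conj κ_j S_(j+1)) = ∑_(j<d) conj κ_j φ(ℓ₁) φ(R_j) = φ(ℓ₁) φ(ρ_0)`, divisible by `φ(ℓ₁)^(q+1)`. -/
def H_EI : Prop :=
  ∀ (m N d : ℕ) (f : Fin (N + 1) → MvPolynomial (Fin m ⊕ Unit) ℂ), SMap m N d f →
    ∀ (β : Fin m → ℂ) (a : ℂ), Null β a → ∀ (v : Fin m → ℂ) (q : ℕ) (κ : ℕ → ℂ),
    (∀ l < q, ∑ j ∈ range (d + 1), κ (j + l) • AJ f β a v j = 0) →
    xp β v ^ (q + 1) ∣ hq f β (conj a) (∑ j ∈ range d, κ j • AJ f β a v (j + 1))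

/-- **H_SQ** (shift argument with `q` windows, linear algebra; `q = 1` is
`Pool/Agent/Helper96/DC/S.lean`).

PROOF. `K := {κ : Fin (d+q) → ℂ | ∑_(j≤d) κ_(j+l) A_j = 0 for l < q}` (finite dimensional). For `κ ∈ K` (extend
by `0`; only the values `κ_j`, `j < d + q` enter) there is a unique `λ(κ)` (`A_0 ≠ 0`) with
`∑_(j<d) κ_j A_(j+1) = λ A_0`. `T κ := (-λ(κ), κ_0, .., κ_(d+q-2))` is again in `K`: for `l ≥ 1` the window `l`
of `T κ` is the window `l - 1` of `κ`, for `l = 0` the sum is `-λ A_0 + ∑_(j≥1) κ_(j-1) A_j = 0`. If `K ≠ 0`,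
`T` has an eigenvector `κ ≠ 0` with eigenvalue `e`. `e = 0`: `κ_0 = .. = κ_(d+q-2) = 0`, and the window
`l = q - 1` gives `κ_(d+q-1) A_d = 0`, `κ = 0`, contradiction. `e ≠ 0`: `κ_(j-1) = e κ_j`, `κ_j = e^(-j) κ_0`,
`κ_0 ≠ 0`, window `l = 0`: `∑ e^(-j) A_j = 0`, contradiction with the third hypothesis. -/
def H_SQ : Prop :=
  ∀ (d M q : ℕ) (A : ℕ → Fin M → ℂ), 1 ≤ q → A 0 ≠ 0 → A d ≠ 0 →
    (∀ t : ℂ, ∑ j ∈ range (d + 1), t ^ j • A j ≠ 0) →
    (∀ κ : ℕ → ℂ, (∀ l < q, ∑ j ∈ range (d + 1), κ (j + l) • A j = 0) →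
      ∃ c : ℂ, ∑ j ∈ range d, κ j • A (j + 1) = c • A 0) →
    ∀ κ : ℕ → ℂ, (∀ l < q, ∑ j ∈ range (d + 1), κ (j + l) • A j = 0) → ∀ j < d + q, κ j = 0

/-- **H_DQ** (dimension count for the windows). PROOF. The linear map
`(Fin (d+q) → ℂ) → (Fin q → span {A_j | j ≤ d})`, `κ ↦ (∑_(j≤d) κ_(j+l) A_j)_l` is injective by hypothesis, so
`d + q ≤ q r`, `r := finrank (span {A_j | j ≤ d})`. -/
def H_DQ : Prop :=
  ∀ (d M q : ℕ) (A : ℕ → Fin M → ℂ),
    (∀ κ : ℕ → ℂ, (∀ l < q, ∑ j ∈ range (d + 1), κ (j + l) • A j = 0) → ∀ j < d + q, κ j = 0) →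
    d + q ≤ q * Module.finrank ℂ (Submodule.span ℂ (Set.range fun j : Fin (d + 1) => A j))

/-- **H_PDEC** (existence of a differential equation of order `≤ J`). See `Pool/Agent/Helper96/DC/PDE.lean`
for the case `J = 2`.

PROOF. `A := MvPolynomial (V3 m) ℂ`. Unknowns `P_α ∈ A`, `|α| ≤ J`, of which there are `C(m+J, m)` (e.g.
`Finset.card_finsuppAntidiag_nat_eq_choose` for `Fin (m+1)`/`Option (Fin m)`, or `Sym`). Equations
`∑ P_α α! coeff α (tay3 (gg f k)) = 0`, `k = 0, .., N`. With `F̄ k` (`f k` with conjugated coefficients, in the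
variables `β', b`) `gg f 0 * F̄ 0 - ∑ gg f j.succ * F̄ j.succ = 0` in `A` (`orth`); applying `tay3`, under which
`F̄ k` becomes the constant `C (F̄ k)`, every coefficient vector `(coeff α (tay3 (gg f k)))_k` satisfies the
same linear relation; some `F̄ k₀ ≠ 0`. So the equation `k₀` follows from the `N` others (domain), and a
homogeneous system of `N` equations in more than `N` unknowns over a domain has a nonzero solution. -/
def H_PDEC : Prop :=
  ∀ (m N d J : ℕ) (f : Fin (N + 1) → MvPolynomial (Fin m ⊕ Unit) ℂ), SMap m N d f →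
    N < (m + J).choose m →
    ∃ P : MvPolynomial (Fin m) (MvPolynomial (V3 m) ℂ), P ≠ 0 ∧ P.totalDegree ≤ J ∧ IsPDE f P

/-- **H_J1** (no differential equation of order `≤ 1`), from `G_JET`.

PROOF. `P = C p₀ + ∑ C p_i X_i` (`totalDegree ≤ 1`), `pr P (tay3 h) = p₀ h + ∑ p_i ∂_i h` where
`∂_i = pderiv (inl i)`: the constant coefficient of `tay3 h` is `h` and the coefficient of `τ_i` is
`pderiv (inl i) h` (induction on `h`). So `Q 0 := p₀`, `Q i.succ := p_i` satisfies the hypothesis of `G_JET`. -/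
def H_J1 : Prop :=
  ∀ (m N d : ℕ) (f : Fin (N + 1) → MvPolynomial (Fin m ⊕ Unit) ℂ), SMap m N d f → 1 ≤ m → 1 ≤ d →
    ∀ P : MvPolynomial (Fin m) (MvPolynomial (V3 m) ℂ), P.totalDegree ≤ 1 → IsPDE f P → P = 0

/-- **H_GOODW** (the good point). From `G_LD`, `G_BEZ`. See `Pool/Agent/Helper8/DC/GOOD.lean`, which proves the
special case of a particular `W`; the proof is the same: take the product of `W` and of the polynomials
`P₁, P₂, P₃` of `G_GOOD` (in the variables `β, β', b, v`), with `κ := Fin m ⊕ L` in `G_LD`. -/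
def H_GOODW : Prop :=
  ∀ (m N d : ℕ) (f : Fin (N + 1) → MvPolynomial (Fin m ⊕ Unit) ℂ), SMap m N d f → 1 ≤ m →
    ∀ (L : Type) (W : MvPolynomial (V3 m ⊕ ((Fin m ⊕ L) ⊕ (Fin m ⊕ L))) ℂ), W ≠ 0 →
    ∃ (β : Fin m → ℂ) (a : ℂ) (v : Fin m → ℂ) (y : L → ℂ), Null β a ∧ fv f β a ≠ 0 ∧
      (∀ t : ℂ, fv f (fun i => β i + t * v i) (a + t * ∑ i, v i * conj (β i)) ≠ 0) ∧
      AJ f β a v d ≠ 0 ∧
      eval (Sum.elim (pt β (fun i => conj (β i)) (conj a))
        (Sum.elim (Sum.elim v y) fun i => conj (Sum.elim v y i))) W ≠ 0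

/-- **H_CNTR** (count with the rank). From `G_HF2`, `G_AJO`, `G_OB`. See `Pool/Agent/Helper85/DC/CNT.lean` for the
case of maximal rank; the proof is the same.

PROOF. `r := finrank (span {A_j(v₀) | j ≤ d}) ≥ 1` (`A_0 = fv f β a ≠ 0`). Choose a linear map
`π : ℂ^(N+1) → ℂ^r` injective on the span and `r` indices `J ⊆ {0..d}` with `0 ∈ J` such that `A_j(v₀)`, `j ∈ J`, is
a basis of the span (`A_0 ≠ 0` can be completed to a basis from the spanning family);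
`P(v) := det (π A_j(v))_(j ∈ J)` is a polynomial in `v`, `P(v₀) ≠ 0`. `G_OB`: orthogonal `e_i`, `i < m`, with
`P(e_i) ≠ 0`, so `A_j(e_i)`, `j ∈ J`, are independent for every `i`. The `m(r-1) + 1` vectors `A_0`, `A_j(e_i)`
(`i < m`, `j ∈ J`, `j ≠ 0`) are independent (same argument as in `G_CNT`: `w_i := ∑_j c_(ij) A_j(e_i)`,
`∑ w_i = c_0 A_0`, the `w_i` are mutually orthogonal and orthogonal to `A_0`, so isotropic, so `w_i ∈ ℂ A_0`) and
lie in `{x | hf x A_0 = 0}`, of dimension `≤ N`. -/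
def H_CNTR : Prop :=
  ∀ (m N d : ℕ) (f : Fin (N + 1) → MvPolynomial (Fin m ⊕ Unit) ℂ), SMap m N d f →
    ∀ (β : Fin m → ℂ) (a : ℂ), Null β a → fv f β a ≠ 0 → ∀ v₀ : Fin m → ℂ,
    m * (Module.finrank ℂ (Submodule.span ℂ
      (Set.range fun j : Fin (d + 1) => AJ f β a v₀ j)) - 1) + 1 ≤ N

/-- **H_PE** (a differential equation with the symbol `e q`, `q` not divisible by `e`).

PROOF. `A₄ := MvPolynomial (V3 m ⊕ Fin m) ℂ` (variables `β, β', b, e`). (1) EXISTENCE of `(q, P₂) ≠ 0` with `q`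
homogeneous of degree `2`, `P₂` of total degree `≤ 2` and `IsPDE4 f (eY * q + P₂)`: unknowns: the coefficients
`q_γ`, `|γ| = 2` (`m(m+1)/2` of them) and `(P₂)_α`, `|α| ≤ 2` (`(m+1)(m+2)/2` of them), together `(m+1)² > N`;
the equations are linear in the unknowns (the pairing is linear in `P`) and satisfy the linear relation with
the coefficients `F̄ k` as in `H_PDEC` (the vectors `(coeff α (map inc (tay3 (gg f k))))_k`), so `N` equations
suffice: nonzero solution. (2) `q ≠ 0`: if `q = 0` then `P₂ ≠ 0`, `IsPDE4 f P₂`; write the coefficients of `P₂`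
as polynomials in `e` over `MvPolynomial (V3 m) ℂ`: as `tay3 (gg f k)` does not involve `e`, each
`e`-monomial coefficient of `P₂` is a PDE of total degree `≤ 2` over `MvPolynomial (V3 m) ℂ`, one of them is
nonzero, contradicting `hno`. (3) `eY ∤ q` for a suitable choice: among all `(q, P₂)` with `q ≠ 0` as above
take one for which the degree in the variables `e` of (the coefficients of) `q` is minimal. Suppose
`q = eY * h`. `h` is homogeneous of degree `1` in `y`, and its degree in `e` is one less (domain, degrees add).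
Let `∂_j` be the derivative with respect to `e_j`, applied to the coefficients. `gg` does not involve `e`, so
`IsPDE4 f (∂_j (eY * q + P₂))`, and `∂_j (eY * eY * h + P₂) = eY * q_j + ∂_j P₂` with
`q_j := 2 y_j h + eY * ∂_j h`, homogeneous of degree `2` in `y`, of smaller degree in `e` than `q`. By
minimality `q_j = 0` for all `j`. Then `0 = ∑ e_j q_j = eY * (2 h + ∑ e_j ∂_j h)`, so `2 h + ∑ e_j ∂_j h = 0`;
on the part of `h` homogeneous of degree `n` in `e` this is `(2 + n) h_n = 0`, so `h = 0`, `q = 0`,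
contradiction. -/
def H_PE : Prop :=
  ∀ (m N d : ℕ) (f : Fin (N + 1) → MvPolynomial (Fin m ⊕ Unit) ℂ), SMap m N d f →
    N < (m + 1) ^ 2 →
    (∀ P : MvPolynomial (Fin m) (MvPolynomial (V3 m) ℂ), P.totalDegree ≤ 2 → IsPDE f P → P = 0) →
    ∃ q P₂ : MvPolynomial (Fin m) (MvPolynomial (V3 m ⊕ Fin m) ℂ),
      q.IsHomogeneous 2 ∧ P₂.totalDegree ≤ 2 ∧ IsPDE4 f (eY * q + P₂) ∧ q ≠ 0 ∧ ¬ eY ∣ q

/-- **H_QD** (a polynomial in `(c, e, y)` vanishing for `∑ e_j y_j = 0` is divisible by `∑ e_j y_j`,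
`m ≥ 2`). `τ` is the set of the other variables `c`.

PROOF. Suppose `q(c, e; y) = 0` whenever `∑ e_j y_j = 0`. Choose two different indices, call them `0` and `1`.
In the ring `S` of polynomials in `(c, e, y)` let `L := ∑ e_j y_j = e_0 y_0 + L'`. Substituting
`y_0 ↦ -L'`, `y_j ↦ e_0 y_j` (`j ≠ 0`) in `q` gives zero as a polynomial (evaluate: `∑ e_j y_j` becomes
`-e_0 L' + e_0 L' = 0`). `q` is homogeneous in `y` of some degree `D` (if `hq` is assumed; `D = 2`): multiplying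
`q` by `e_0^D`: `e_0^D q(y) = q(e_0 y)` and `e_0 y_0 = L - L'`, so `q(e_0 y_0, e_0 y_1, ..) ≡
q(-L', e_0 y_1, ..) = 0` modulo `L`. So `L ∣ e_0^D q`. `L` is irreducible
(`MvPolynomial.irreducible_sumSMulXSMulY` or directly: `L` has degree `1` in `y_0`, and its coefficients `e_0`
and `L'` have no common factor because `L'` contains `e_1 y_1`), so prime, and does not divide `e_0`, so
`L ∣ q`. -/
def H_QD : Prop :=
  ∀ (m : ℕ) (q : MvPolynomial (Fin m) (MvPolynomial (V3 m ⊕ Fin m) ℂ)), 2 ≤ m →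
    q.IsHomogeneous 2 →
    (∀ (c : V3 m → ℂ) (e y : Fin m → ℂ), ∑ j, e j * y j = 0 →
      eval (Sum.elim c e) (ev2 y q) = 0) → eY ∣ q

end Pool.Agent.Helper69.DC
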