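import Mathlib
import Pool.Agent.Helper28.Ball.Mono
import Pool.Agent.Helper28.Ball.Families
import Pool.Agent.Helper69.DC.Defs
import Pool.Agent.Helper69.DC.Defs2
import Pool.Agent.Helper69.DC.Goals
import Pool.Agent.Helper69.DC.Goals2
import Pool.Agent.Helper69.DC.Asm
import Pool.Agent.Helper13.DC.X
import Pool.Agent.Helper81.DC.DIV

/-!
Assembly of the second stage, part 1: the degree bound `m d ≤ a (N - 1)`.
-/

namespace Pool.Agent.Helper69.DC

open MvPolynomial Finset ComplexConjugate Pool.Agent.Helper28.Ball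

/-! ### The pairing -/

lemma pr_eq_sum {m : ℕ} {R : Type*} [CommRing R] (P G : MvPolynomial (Fin m) R)
    (s : Finset (Fin m →₀ ℕ)) (hs : P.support ⊆ s) :
    pr P G = ∑ α ∈ s, P.coeff α * ((∏ i, (α i).factorial : ℕ) : R) * G.coeff α := by
  unfold pr
  apply Finset.sum_subset hs
  intro α _ hα
  rw [MvPolynomial.notMem_support_iff.1 hα, zero_mul, zero_mul]

lemma pr_map {m : ℕ} {R S : Type*} [CommRing R] [CommRing S] (φ : R →+* S)
    (P G : MvPolynomial (Fin m) R) : pr (MvPolynomial.map φ P) (MvPolynomial.map φ G) = φ (pr P G) := by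
  rw [pr_eq_sum (MvPolynomial.map φ P) _ P.support (MvPolynomial.support_map_subset φ P)]
  unfold pr
  rw [map_sum]
  refine Finset.sum_congr rfl fun α _ => ?_
  rw [coeff_map, coeff_map, map_mul, map_mul, map_natCast]

lemma pr_sub {m : ℕ} {R : Type*} [CommRing R] (P G H : MvPolynomial (Fin m) R) :
    pr P (G - H) = pr P G - pr P H := by
  unfold pr
  rw [← Finset.sum_sub_distrib]
  refine Finset.sum_congr rfl fun α _ => ?_
  rw [coeff_sub]
  ring

lemma pr_C_mul {m : ℕ} {R : Type*} [CommRing R] (c : R) (P G : MvPolynomial (Fin m) R) :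
    pr P (C c * G) = c * pr P G := by
  unfold pr
  rw [Finset.mul_sum]
  refine Finset.sum_congr rfl fun α _ => ?_
  rw [coeff_C_mul]
  ring

lemma pr_sum {m : ℕ} {R : Type*} [CommRing R] {ι : Type*} (s : Finset ι)
    (P : MvPolynomial (Fin m) R) (G : ι → MvPolynomial (Fin m) R) :
    pr P (∑ i ∈ s, G i) = ∑ i ∈ s, pr P (G i) := by
  unfold pr
  rw [Finset.sum_comm]
  refine Finset.sum_congr rfl fun α _ => ?_
  rw [coeff_sum, Finset.mul_sum]

lemma map_spec_tay3 {m : ℕ} (β : Fin m → ℂ) (b : ℂ) (h : MvPolynomial (V3 m) ℂ) :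
    MvPolynomial.map (spec β b).toRingHom (tay3 h) = tay1 (spec β b h) := by
  have key : ((MvPolynomial.map (spec β b).toRingHom).comp
      (tay3 : MvPolynomial (V3 m) ℂ →ₐ[ℂ] _).toRingHom) =
      ((tay1 : MvPolynomial (Fin m) ℂ →ₐ[ℂ] _).toRingHom.comp (spec β b).toRingHom) := by
    apply MvPolynomial.ringHom_ext
    · intro a
      simp [spec, tay3, tay1, MvPolynomial.algebraMap_apply]
    · intro j
      rcases j with j | j | j
      · simp [spec, tay3, tay1]
      · simp [spec, tay3, tay1, MvPolynomial.algebraMap_apply]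
      · simp [spec, tay3, tay1, MvPolynomial.algebraMap_apply]
  exact DFunLike.congr_fun key h

lemma tay1_C {m : ℕ} (c : ℂ) : (tay1 (C c : MvPolynomial (Fin m) ℂ)) = C (C c) := by
  simp [tay1, MvPolynomial.algebraMap_apply]

lemma pde_hq_aux {m N : ℕ} (f : Fin (N + 1) → MvPolynomial (Fin m ⊕ Unit) ℂ)
    (β : Fin m → ℂ) (b : ℂ) (c : Fin (N + 1) → ℂ)
    (P : MvPolynomial (Fin m) (MvPolynomial (Fin m) ℂ))
    (hP : ∀ k, pr P (tay1 (gp f β b k)) = 0) : pr P (tay1 (hq f β b c)) = 0 := by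
  unfold hq
  rw [map_sub, map_mul, tay1_C, map_sum, pr_sub, pr_C_mul, hP, mul_zero, pr_sum, zero_sub,
    neg_eq_zero]
  refine Finset.sum_eq_zero fun j _ => ?_
  rw [map_mul, tay1_C, pr_C_mul, hP, mul_zero]

lemma pde_hq {m N : ℕ} (f : Fin (N + 1) → MvPolynomial (Fin m ⊕ Unit) ℂ)
    (P : MvPolynomial (Fin m) (MvPolynomial (V3 m) ℂ)) (hP : IsPDE f P)
    (β : Fin m → ℂ) (b : ℂ) (c : Fin (N + 1) → ℂ) :
    pr (MvPolynomial.map (spec β b).toRingHom P) (tay1 (hq f β b c)) = 0 := by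
  apply pde_hq_aux
  intro k
  rw [← spec_gg, ← map_spec_tay3, pr_map, hP k, map_zero]

lemma spec4_inc {m : ℕ} (β : Fin m → ℂ) (b : ℂ) (e : Fin m → ℂ) :
    ((spec4 β b e).toRingHom.comp inc) = (spec β b).toRingHom := by
  apply MvPolynomial.ringHom_ext
  · intro a
    simp [spec4, inc, spec]
  · intro j
    rcases j with j | j | j <;> simp [spec4, inc, spec]

lemma pde4_hq {m N : ℕ} (f : Fin (N + 1) → MvPolynomial (Fin m ⊕ Unit) ℂ)
    (P : MvPolynomial (Fin m) (MvPolynomial (V3 m ⊕ Fin m) ℂ)) (hP : IsPDE4 f P)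
    (β : Fin m → ℂ) (b : ℂ) (e : Fin m → ℂ) (c : Fin (N + 1) → ℂ) :
    pr (MvPolynomial.map (spec4 β b e).toRingHom P) (tay1 (hq f β b c)) = 0 := by
  apply pde_hq_aux
  intro k
  rw [← spec_gg, ← map_spec_tay3, ← spec4_inc β b e, ← MvPolynomial.map_map, pr_map, hP k,
    map_zero]

/-! ### Values of symbols -/

lemma eval_eval2 {m : ℕ} {ρ σ : Type*} (θ : ρ → MvPolynomial σ ℂ) (η : Fin m → MvPolynomial σ ℂ)
    (x : σ → ℂ) (q : MvPolynomial (Fin m) (MvPolynomial ρ ℂ)) :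
    eval x (eval₂ (aeval θ : MvPolynomial ρ ℂ →ₐ[ℂ] MvPolynomial σ ℂ).toRingHom η q) =
      eval (fun s => eval x (θ s)) (ev2 (fun i => eval x (η i)) q) := by
  unfold ev2
  induction q using MvPolynomial.induction_on with
  | C a =>
    simp only [eval₂_C, AlgHom.toRingHom_eq_coe, RingHom.coe_coe, eval_C]
    induction a using MvPolynomial.induction_on with
    | C a => simp
    | add p q hp hq => simp only [map_add, hp, hq]
    | mul_X p i hp => simp only [map_mul, hp, aeval_X, eval_X]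
  | add p q hp hq => simp only [eval₂_add, map_add, hp, hq]
  | mul_X p i hp => simp only [eval₂_mul, eval₂_X, map_mul, hp, eval_X, eval_C]

lemma eval_ev2_map {m : ℕ} {ρ : Type*} (θ : ρ → MvPolynomial (Fin m) ℂ) (x : Fin m → ℂ)
    (w : Fin m → ℂ) (q : MvPolynomial (Fin m) (MvPolynomial ρ ℂ)) :
    eval x (ev2 w (MvPolynomial.map
      (aeval θ : MvPolynomial ρ ℂ →ₐ[ℂ] MvPolynomial (Fin m) ℂ).toRingHom q)) =
      eval (fun s => eval x (θ s)) (ev2 w q) := by
  have h := eval_eval2 θ (fun i => C (w i)) x q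
  simp only [eval_C] at h
  rw [← h]
  unfold ev2
  rw [MvPolynomial.eval_map]

lemma exists_ev2_ne {m : ℕ} {ρ : Type*} (q : MvPolynomial (Fin m) (MvPolynomial ρ ℂ))
    (hq : q ≠ 0) : ∃ (c : ρ → ℂ) (w : Fin m → ℂ), eval c (ev2 w q) ≠ 0 := by
  by_contra hcon
  push Not at hcon
  apply hq
  have h1 : ∀ c : ρ → ℂ, MvPolynomial.map (eval c) q = 0 := by
    intro c
    apply MvPolynomial.funext
    intro w
    rw [map_zero, ← hcon c w]
    unfold ev2
    clear hcon hq
    induction q using MvPolynomial.induction_on with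
    | C a => simp
    | add p q hp hq => simp only [map_add, hp, hq]
    | mul_X p i hp => simp only [map_mul, hp, map_X, eval_X, eval_C]
  ext α : 1
  rw [coeff_zero]
  apply MvPolynomial.funext
  intro c
  have := congrArg (coeff α) (h1 c)
  rwa [coeff_map, coeff_zero] at this

/-- The conclusion `c ∈ ℂ A_0` from the vanishing of `hq`. -/
lemma c_mem (hHF2 : G_HF2) (hAJO : G_AJO) {m N d : ℕ}
    (f : Fin (N + 1) → MvPolynomial (Fin m ⊕ Unit) ℂ) (hf' : SMap m N d f)
    (β : Fin m → ℂ) (a : ℂ) (hnull : Null β a) (hA0 : fv f β a ≠ 0) (v : Fin m → ℂ) (κ : ℕ → ℂ)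
    (hh0 : hq f β (conj a) (∑ j ∈ range d, κ j • AJ f β a v (j + 1)) = 0) :
    ∃ l : ℂ, ∑ j ∈ range d, κ j • AJ f β a v (j + 1) = l • AJ f β a v 0 := by
  obtain ⟨hO1, hO2, hO3, hO4, hO5⟩ := hAJO m N d f hf' β a hnull
  set c := ∑ j ∈ range d, κ j • AJ f β a v (j + 1) with hc
  have hη : ∀ t : ℂ, ∑ j ∈ range (d + 1), t ^ j * hf (AJ f β a v j) c = 0 := by
    intro t
    have h1 := congrArg (eval fun i => β i + t * v i) hh0
    rw [eval_hq, map_zero] at h1
    have h2 : ∑ i, conj (β i) * (β i + t * v i) - conj a = a + t * ∑ i, v i * conj (β i) := by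
      have h3 : ∑ i, conj (β i) * (β i + t * v i) =
          ∑ i, β i * conj (β i) + t * ∑ i, v i * conj (β i) := by
        rw [Finset.mul_sum, ← Finset.sum_add_distrib]
        exact Finset.sum_congr rfl fun i _ => by ring
      rw [h3, ← hnull]
      ring
    rw [h2, ← hO5 v t, hf_sum_left] at h1
    simpa only [hf_smul_left] using h1
  have hAc := coeffs_zero _ hη
  have hcc : hf c c = 0 := by
    conv_lhs => rw [hc]
    rw [hf_sum_left]
    refine Finset.sum_eq_zero fun j hj => ?_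
    rw [hf_smul_left, ← hc, hAc (j + 1) (by have := Finset.mem_range.1 hj; omega), mul_zero]
  have hc0 : hf c (fv f β a) = 0 := by
    conv_lhs => rw [hc]
    rw [hf_sum_left]
    refine Finset.sum_eq_zero fun j hj => ?_
    rw [hf_smul_left, hO2, mul_zero]
  obtain ⟨l, hl⟩ := hHF2 N (fv f β a) c hA0 (hf'.orth β a β a hnull) hcc hc0
  exact ⟨l, by rw [hO3 v, hl]⟩

/-- The windows are zero if members divisible by `X^(q+1)` vanish. -/
lemma windows (hHF2 : G_HF2) (hAJO : G_AJO) (hEI : H_EI) (hSQ : H_SQ) {m N d : ℕ}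
    (f : Fin (N + 1) → MvPolynomial (Fin m ⊕ Unit) ℂ) (hf' : SMap m N d f)
    (β : Fin m → ℂ) (a : ℂ) (hnull : Null β a) (hA0 : fv f β a ≠ 0) (v : Fin m → ℂ)
    (hzf : ∀ t : ℂ, fv f (fun i => β i + t * v i) (a + t * ∑ i, v i * conj (β i)) ≠ 0)
    (hAd : AJ f β a v d ≠ 0) (q : ℕ) (hq1 : 1 ≤ q)
    (hkill : ∀ c, xp β v ^ (q + 1) ∣ hq f β (conj a) c → hq f β (conj a) c = 0) :
    ∀ κ : ℕ → ℂ, (∀ l < q, ∑ j ∈ range (d + 1), κ (j + l) • AJ f β a v j = 0) →
      ∀ j < d + q, κ j = 0 := by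
  obtain ⟨hO1, hO2, hO3, hO4, hO5⟩ := hAJO m N d f hf' β a hnull
  apply hSQ d (N + 1) q (fun j => AJ f β a v j) hq1
  · show AJ f β a v 0 ≠ 0
    rw [hO3 v]
    exact hA0
  · exact hAd
  · intro t
    have := hzf t
    rwa [← hO5 v t] at this
  · intro κ hκ
    exact c_mem hHF2 hAJO f hf' β a hnull hA0 v κ (hkill _ (hEI m N d f hf' β a hnull v q κ hκ))

lemma map_hom {m J : ℕ} {R S : Type*} [CommRing R] [CommRing S] (φ : R →+* S)
    (P : MvPolynomial (Fin m) R) : homogeneousComponent J (MvPolynomial.map φ P) =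
      MvPolynomial.map φ (homogeneousComponent J P) := by
  ext α
  rw [coeff_homogeneousComponent, coeff_map, coeff_map, coeff_homogeneousComponent]
  split_ifs <;> simp

lemma totalDegree_map_le' {m : ℕ} {R S : Type*} [CommRing R] [CommRing S] (φ : R →+* S)
    (P : MvPolynomial (Fin m) R) : (MvPolynomial.map φ P).totalDegree ≤ P.totalDegree := by
  unfold MvPolynomial.totalDegree
  exact Finset.sup_mono (MvPolynomial.support_map_subset φ P)

/-- **Core of Theorem C**: a differential equation of order exactly `i ≥ 2` gives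
`m d ≤ (i - 1)(N - 1)`. -/
theorem core (hHF2 : G_HF2) (hAJO : G_AJO) (hEI : H_EI) (hSQ : H_SQ) (hDQ : H_DQ) (hTX : H_TX)
    (hGOODW : H_GOODW) (hCNTR : H_CNTR) {m N d : ℕ}
    (f : Fin (N + 1) → MvPolynomial (Fin m ⊕ Unit) ℂ) (hf' : SMap m N d f) (hm : 1 ≤ m)
    (P : MvPolynomial (Fin m) (MvPolynomial (V3 m) ℂ)) (hP0 : P ≠ 0) (hP : IsPDE f P)
    (hi : 2 ≤ P.totalDegree) : m * d ≤ (P.totalDegree - 1) * (N - 1) := by
  classical
  set i := P.totalDegree with hidef
  set S := homogeneousComponent i P with hS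
  have hS0 : S ≠ 0 := by
    intro h0
    obtain ⟨α, hα, hα2⟩ : ∃ α ∈ P.support, (α.sum fun _ e => e) = i := by
      have hne : P.support.Nonempty := by
        rwa [Finset.nonempty_iff_ne_empty, Ne, MvPolynomial.support_eq_empty]
      obtain ⟨α, hα, h⟩ := Finset.exists_mem_eq_sup P.support hne (fun s => s.sum fun _ e => e)
      exact ⟨α, hα, by rw [hidef]; exact h.symm⟩
    have h1 := congrArg (coeff α) h0
    rw [hS, coeff_homogeneousComponent, if_pos (by rw [← hα2]; rfl), coeff_zero] at h1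
    exact (MvPolynomial.mem_support_iff.1 hα) h1
  obtain ⟨c0, w0, hcw⟩ := exists_ev2_ne S hS0
  set W : MvPolynomial (V3 m ⊕ ((Fin m ⊕ Empty) ⊕ (Fin m ⊕ Empty))) ℂ :=
    eval₂ (aeval (fun s => X (Sum.inl s)) : MvPolynomial (V3 m) ℂ →ₐ[ℂ] _).toRingHom
      (fun j => X (Sum.inr (Sum.inr (Sum.inl j)))) S with hW
  have hWev : ∀ (c : V3 m → ℂ) (r r' : Fin m ⊕ Empty → ℂ),
      eval (Sum.elim c (Sum.elim r r')) W = eval c (ev2 (fun j => r' (Sum.inl j)) S) := by
    intro c r r'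
    rw [hW, eval_eval2]
    simp
  have hW0 : W ≠ 0 := by
    intro h0
    apply hcw
    have := hWev c0 (fun _ => 0) (Sum.elim w0 fun _ => 0)
    rw [h0, map_zero] at this
    simpa using this.symm
  obtain ⟨β, a, v, y, hnull, hA0, hzf, hAd, hWne⟩ := hGOODW m N d f hf' hm Empty W hW0
  rw [hWev] at hWne
  simp only [Sum.elim_inl] at hWne
  obtain ⟨q, hq⟩ : ∃ q, i = q + 1 := ⟨i - 1, by omega⟩
  have hkill : ∀ c, xp β v ^ (q + 1) ∣ Pool.Agent.Helper69.DC.hq f β (conj a) c →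
      Pool.Agent.Helper69.DC.hq f β (conj a) c = 0 := by
    intro c hc
    apply hTX m (q + 1) β v (MvPolynomial.map (spec β (conj a)).toRingHom P) _ _
      (pde_hq f P hP β (conj a) c) hc
    · rw [← hq, map_hom, ← hS]
      unfold spec
      rw [eval_ev2_map]
      have hpt : (fun s => eval β ((Sum.elim (fun i => X i)
          (Sum.elim (fun i => C (conj (β i))) fun _ => C (conj a)) :
          V3 m → MvPolynomial (Fin m) ℂ) s)) = pt β (fun i => conj (β i)) (conj a) := by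
        funext s
        rcases s with s | s | s <;> simp [pt]
      rw [hpt]
      exact hWne
    · rw [← hq]
      exact totalDegree_map_le' _ _
  have hwin := windows hHF2 hAJO hEI hSQ f hf' β a hnull hA0 v hzf hAd q (by omega) hkill
  have h1 := hDQ d (N + 1) q (fun j => AJ f β a v j) hwin
  have h2 := hCNTR m N d f hf' β a hnull hA0 v
  set r := Module.finrank ℂ (Submodule.span ℂ (Set.range fun j : Fin (d + 1) => AJ f β a v j))
    with hr
  have h3 : d ≤ q * (r - 1) := by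
    rcases Nat.eq_zero_or_pos r with h0 | h0
    · rw [h0] at h1
      omega
    · obtain ⟨r', hr'⟩ : ∃ r', r = r' + 1 := ⟨r - 1, by omega⟩
      rw [hr'] at h1 ⊢
      rw [Nat.mul_add, mul_one] at h1
      rw [Nat.add_sub_cancel]
      omega
  have h4 : m * d ≤ q * (m * (r - 1)) := by
    calc m * d ≤ m * (q * (r - 1)) := Nat.mul_le_mul_left m h3
      _ = q * (m * (r - 1)) := by ring
  have h5 : m * (r - 1) ≤ N - 1 := by omega
  have h6 : i - 1 = q := by omega
  rw [h6]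
  exact h4.trans (Nat.mul_le_mul_left q h5)

/-- **Theorem C** in Siegel form. -/
theorem siegel_C (hHF2 : G_HF2) (hAJO : G_AJO) (hEI : H_EI) (hSQ : H_SQ) (hDQ : H_DQ)
    (hTX : H_TX) (hGOODW : H_GOODW) (hCNTR : H_CNTR) (hPDEC : H_PDEC) (hJ1 : H_J1) {m N d a : ℕ}
    (f : Fin (N + 1) → MvPolynomial (Fin m ⊕ Unit) ℂ) (hf' : SMap m N d f) (hm : 1 ≤ m)
    (hd : 1 ≤ d) (hN : N < (m + (a + 1)).choose m) : m * d ≤ a * (N - 1) := by
  obtain ⟨P, hP0, hPd, hP⟩ := hPDEC m N d (a + 1) f hf' hN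
  have hi : 2 ≤ P.totalDegree := by
    by_contra hlt
    exact hP0 (hJ1 m N d f hf' hm hd P (by omega) hP)
  have h := core hHF2 hAJO hEI hSQ hDQ hTX hGOODW hCNTR f hf' hm P hP0 hP hi
  refine h.trans (Nat.mul_le_mul_right _ ?_)
  omega

theorem boundC_of (hHF2 : G_HF2) (hAJO : G_AJO) (hEI : H_EI) (hSQ : H_SQ) (hDQ : H_DQ)
    (hTX : H_TX) (hGOODW : H_GOODW) (hCNTR : H_CNTR) (hPDEC : H_PDEC) (hJ1 : H_J1) (hCAY : G_CAY)
    (n N d a : ℕ) (hn : 2 ≤ n) (hN : N < (n + a).choose (a + 1)) (hd : 1 ≤ d)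
    (p : Fin N → MvPolynomial (Fin n) ℂ) (q : MvPolynomial (Fin n) ℂ)
    (hf : IsProperMap p q) (hdeg : mapDegree p q = d) : (n - 1) * d ≤ a * (N - 1) := by
  obtain ⟨m, rfl⟩ : ∃ m, n = m + 1 := ⟨n - 1, by omega⟩
  obtain ⟨f, hf'⟩ := hCAY m N d p q hf hdeg
  rw [Nat.add_sub_cancel]
  refine siegel_C hHF2 hAJO hEI hSQ hDQ hTX hGOODW hCNTR hPDEC hJ1 f hf' (by omega) hd ?_
  have h1 : m + 1 + a = m + (a + 1) := by ring
  rw [h1, ← Nat.choose_symm_add] at hN
  exact hN

end Pool.Agent.Helper69.DC
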