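import Mathlib
import Pool.Agent.Helper69.DC.Asm
import Pool.Agent.Helper13.DC.X
import Pool.Agent.Helper26.DC.ORTH
import Pool.Agent.Helper33.DC.E
import Pool.Agent.Helper33.DC.SPH
import Pool.Agent.Helper39.DC.CCOP
import Pool.Agent.Helper39.DC.CEV
import Pool.Agent.Helper5.DC.LD
import Pool.Agent.Helper50.DC.JET
import Pool.Agent.Helper53.DC.AJO
import Pool.Agent.Helper56.DC.CAY
import Pool.Agent.Helper64.DC.BEZ
import Pool.Agent.Helper8.DC.GOOD
import Pool.Agent.Helper81.DC.DIV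
import Pool.Agent.Helper83.DC.HF2
import Pool.Agent.Helper85.DC.CNT
import Pool.Agent.Helper91.DC.OB
import Pool.Agent.Helper96.DC.PDE
import Pool.Agent.Helper96.DC.S

/-!
Unconditional sharp degree bound below the maximal geometric rank.
-/

namespace Pool.Agent.Helper69.DC

open MvPolynomial Finset ComplexConjugate Pool.Agent.Helper28.Ball

theorem k_ld : G_LD := Pool.Agent.Helper5.DC.g_ld
theorem k_ld3 : G_LD3 := Pool.Agent.Helper5.DC.g_ld3
theorem k_sph : G_SPH := Pool.Agent.Helper33.DC.g_sph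
theorem k_orth : G_ORTH := Pool.Agent.Helper26.DC.g_orth k_ld3
theorem k_cev : G_CEV := Pool.Agent.Helper39.DC.g_cev
theorem k_ccop : G_CCOP := Pool.Agent.Helper39.DC.g_ccop
theorem k_cay : G_CAY := Pool.Agent.Helper56.DC.g_cay k_sph k_orth k_cev k_ccop
theorem k_bez : G_BEZ := Pool.Agent.Helper64.DC.g_bez
theorem k_hf2 : G_HF2 := Pool.Agent.Helper83.DC.g_hf2
theorem k_ajo : G_AJO := Pool.Agent.Helper53.DC.g_ajo
theorem k_div : G_DIV := Pool.Agent.Helper81.DC.g_div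
theorem k_e : G_E := Pool.Agent.Helper33.DC.g_e k_ajo k_div
theorem k_x : G_X := Pool.Agent.Helper13.DC.g_x
theorem k_s : G_S := Pool.Agent.Helper96.DC.g_s
theorem k_jet : G_JET := Pool.Agent.Helper50.DC.g_jet k_ld3 k_hf2 k_ajo
theorem k_pde : G_PDE := Pool.Agent.Helper96.DC.g_pde
theorem k_good : G_GOOD := Pool.Agent.Helper8.DC.g_good k_ld k_bez
theorem k_ob : G_OB := Pool.Agent.Helper91.DC.g_ob
theorem k_cnt : G_CNT := Pool.Agent.Helper85.DC.g_cnt k_hf2 k_ajo k_ob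

theorem bound (n N d : ℕ) (hn : 2 ≤ n) (hN : 2 * N < n * (n + 1)) (hd : 1 ≤ d)
    (p : Fin N → MvPolynomial (Fin n) ℂ) (q : MvPolynomial (Fin n) ℂ)
    (hf : IsProperMap p q) (hdeg : mapDegree p q = d) : (n - 1) * d + 1 ≤ N :=
  bound_of k_hf2 k_ajo k_e k_x k_s k_jet k_pde k_good k_cnt k_cay n N d hn hN hd p q hf hdeg

theorem descent (n N d : ℕ) (hn : 2 ≤ n) (hN : 2 * N < n * (n + 1)) (hd : 1 < d)
    (p : Fin N → MvPolynomial (Fin n) ℂ) (q : MvPolynomial (Fin n) ℂ)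
    (hf : IsProperMap p q) (hdeg : mapDegree p q = d) :
    ∃ p' : Fin N → MvPolynomial (Fin n) ℂ, IsProperMap p' 1 ∧
      (∀ j, ∃ (α : Fin n →₀ ℕ) (c : ℂ), p' j = monomial α c) ∧ mapDegree p' 1 = d - 1 :=
  descent_of k_hf2 k_ajo k_e k_x k_s k_jet k_pde k_good k_cnt k_cay n N d hn hN hd p q hf hdeg

end Pool.Agent.Helper69.DC
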