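import Mathlib
import Pool.Agent.Helper69.DC.Final
import Pool.Agent.Helper69.DC.Asm2
import Pool.Agent.Helper56.DC.TX
import Pool.Agent.Helper68.DC.EI
import Pool.Agent.Helper99.DC.SQ
import Pool.Agent.Helper18.DC.DQ
import Pool.Agent.Helper15.DC.PDEC
import Pool.Agent.Helper86.DC.J1
import Pool.Agent.Helper99.DC.GOODW
import Pool.Agent.Helper46.DC.CNTR

/-!
Unconditional degree bound from partial differential equations of order `a + 1`.
-/

namespace Pool.Agent.Helper69.DC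

open MvPolynomial Finset ComplexConjugate Pool.Agent.Helper28.Ball

theorem h_tx : H_TX := Pool.Agent.Helper56.DC.h_tx
theorem h_ei : H_EI := Pool.Agent.Helper68.DC.h_ei
theorem h_sq : H_SQ := Pool.Agent.Helper99.DC.h_sq
theorem h_dq : H_DQ := Pool.Agent.Helper18.DC.h_dq
theorem h_pdec : H_PDEC := Pool.Agent.Helper15.DC.h_pdec
theorem h_j1 : H_J1 := Pool.Agent.Helper86.DC.h_j1 k_jet
theorem h_goodw : H_GOODW := Pool.Agent.Helper99.DC.h_goodw k_ld k_bez
theorem h_cntr : H_CNTR := Pool.Agent.Helper46.DC.h_cntr k_hf2 k_ajo k_ob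

theorem boundC (n N d a : ℕ) (hn : 2 ≤ n) (hN : N < (n + a).choose (a + 1)) (hd : 1 ≤ d)
    (p : Fin N → MvPolynomial (Fin n) ℂ) (q : MvPolynomial (Fin n) ℂ)
    (hf : IsProperMap p q) (hdeg : mapDegree p q = d) : (n - 1) * d ≤ a * (N - 1) :=
  boundC_of k_hf2 k_ajo h_ei h_sq h_dq h_tx h_goodw h_cntr h_pdec h_j1 k_cay n N d a hn hN hd
    p q hf hdeg

end Pool.Agent.Helper69.DC
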