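import Mathlib
import Pool.Agent.Helper69.DC.Asm2

/-!
Assembly of the second stage, part 2: `m (d - 1) + 1 ≤ N` for `N < (m + 1)²`.
-/

namespace Pool.Agent.Helper69.DC

open MvPolynomial Finset ComplexConjugate Pool.Agent.Helper28.Ball

/-- The value `q(c, e; w)`. -/
noncomputable def QV {m : ℕ} (q : MvPolynomial (Fin m) (MvPolynomial (V3 m ⊕ Fin m) ℂ))
    (c : V3 m → ℂ) (e w : Fin m → ℂ) : ℂ := eval (Sum.elim c e) (ev2 w q)

/-- The vector `E(y) = u_(i₀) y - (∑ u_l y_l) ε_(i₀)`, which satisfies `∑ u_j E_j = 0`. -/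
def Ev {m : ℕ} (i₀ : Fin m) (u y : Fin m → ℂ) : Fin m → ℂ :=
  fun j => u i₀ * y j - if j = i₀ then ∑ l, u l * y l else 0

lemma Ev_orth {m : ℕ} (i₀ : Fin m) (u y : Fin m → ℂ) : ∑ j, Ev i₀ u y j * u j = 0 := by
  unfold Ev
  simp only [sub_mul, Finset.sum_sub_distrib, ite_mul, zero_mul, Finset.sum_ite_eq',
    Finset.mem_univ, if_true]
  rw [sub_eq_zero, Finset.sum_mul]
  exact Finset.sum_congr rfl fun j _ => by ring

lemma Ev_eq {m : ℕ} (i₀ : Fin m) (u e : Fin m → ℂ) (hu : u i₀ ≠ 0) (he : ∑ j, e j * u j = 0) :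
    Ev i₀ u (fun j => e j / u i₀) = e := by
  have h1 : ∑ l, u l * (e l / u i₀) = 0 := by
    have : ∑ l, u l * (e l / u i₀) = (∑ l, e l * u l) / u i₀ := by
      rw [Finset.sum_div]
      exact Finset.sum_congr rfl fun l _ => by ring
    rw [this, he, zero_div]
  funext j
  unfold Ev
  rw [h1]
  simp only [ite_self, sub_zero]
  field_simp

lemma eval_spec4_q {m : ℕ} (β : Fin m → ℂ) (b : ℂ) (e w : Fin m → ℂ)
    (q : MvPolynomial (Fin m) (MvPolynomial (V3 m ⊕ Fin m) ℂ)) :
    eval β (ev2 w (MvPolynomial.map (spec4 β b e).toRingHom q)) =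
      QV q (pt β (fun i => conj (β i)) b) e w := by
  unfold spec4 QV
  rw [eval_ev2_map]
  congr 1
  apply congrArg
  funext s
  rcases s with (s | s | s) | s <;> simp [pt]

lemma map_spec4_eY {m : ℕ} (β : Fin m → ℂ) (b : ℂ) (e : Fin m → ℂ) :
    MvPolynomial.map (spec4 β b e).toRingHom eY = eC e := by
  unfold eY eC
  rw [map_sum]
  refine Finset.sum_congr rfl fun j _ => ?_
  rw [map_mul, map_C, map_X]
  simp [spec4]

lemma hq_sub_smul {m N : ℕ} (f : Fin (N + 1) → MvPolynomial (Fin m ⊕ Unit) ℂ) (β : Fin m → ℂ)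
    (b : ℂ) (μ : ℂ) (x y : Fin (N + 1) → ℂ) :
    hq f β b (x - μ • y) = hq f β b x - C (conj μ) * hq f β b y := by
  unfold hq
  have h1 : ∀ j : Fin N, C (conj ((x - μ • y) j.succ)) * gp f β b j.succ =
      C (conj (x j.succ)) * gp f β b j.succ -
        C (conj μ) * (C (conj (y j.succ)) * gp f β b j.succ) := by
    intro j
    rw [Pi.sub_apply, Pi.smul_apply, smul_eq_mul, map_sub, map_mul, map_sub, map_mul]
    ring
  rw [Finset.sum_congr rfl fun j _ => h1 j, Finset.sum_sub_distrib, ← Finset.mul_sum,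
    Pi.sub_apply, Pi.smul_apply, smul_eq_mul, map_sub, map_mul, map_sub, map_mul]
  ring

lemma isHomogeneous_map' {m n : ℕ} {R S : Type*} [CommRing R] [CommRing S] (φ : R →+* S)
    (P : MvPolynomial (Fin m) R) (h : P.IsHomogeneous n) : (MvPolynomial.map φ P).IsHomogeneous n := by
  intro α hα
  apply h
  intro h0
  apply hα
  rw [coeff_map, h0, map_zero]

lemma eC_hom {m : ℕ} (e : Fin m → ℂ) : (eC e).IsHomogeneous 1 := by
  unfold eC
  apply IsHomogeneous.sum
  intro j _
  have := (isHomogeneous_C (Fin m) (C (e j) : MvPolynomial (Fin m) ℂ)).mul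
    (isHomogeneous_X (MvPolynomial (Fin m) ℂ) j)
  simpa using this

theorem siegel_Q (hHF2 : G_HF2) (hAJO : G_AJO) (hEI : H_EI) (hSQ : H_SQ) (hDQ : H_DQ)
    (hTX : H_TX) (hTQ : H_TQ) (hWR : H_WR) (hGOODW : H_GOODW) (hCNTR : H_CNTR) (hJ1 : H_J1)
    (hPE : H_PE) (hQD : H_QD) {m N d : ℕ}
    (f : Fin (N + 1) → MvPolynomial (Fin m ⊕ Unit) ℂ) (hf' : SMap m N d f) (hm : 2 ≤ m)
    (hd : 1 ≤ d) (hN : N < (m + 1) ^ 2) : m * (d - 1) + 1 ≤ N := by
  classical
  by_cases hno : ∀ P : MvPolynomial (Fin m) (MvPolynomial (V3 m) ℂ),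
      P.totalDegree ≤ 2 → IsPDE f P → P = 0
  swap
  · push Not at hno
    obtain ⟨P, hPd, hP, hP0⟩ := hno
    have hi : 2 ≤ P.totalDegree := by
      by_contra hlt
      exact hP0 (hJ1 m N d f hf' (by omega) hd P (by omega) hP)
    have h := core hHF2 hAJO hEI hSQ hDQ hTX hGOODW hCNTR f hf' (by omega) P hP0 hP hi
    have h2 : P.totalDegree = 2 := le_antisymm hPd hi
    rw [h2] at h
    have h3 : m * d = m * (d - 1) + m := by
      obtain ⟨e, rfl⟩ : ∃ e, d = e + 1 := ⟨d - 1, by omega⟩
      rw [Nat.add_sub_cancel]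
      ring
    omega
  obtain ⟨q, P₂, hqh, hP₂, hpde, hq0, hqe⟩ := hPE m N d f hf' hN hno
  -- a point where `q(c, e; w) ≠ 0` and `∑ e_j w_j = 0`
  obtain ⟨c0, e0, w0, hew0, hq1⟩ : ∃ (c : V3 m → ℂ) (e w : Fin m → ℂ),
      ∑ j, e j * w j = 0 ∧ QV q c e w ≠ 0 := by
    by_contra hcon
    push Not at hcon
    exact hqe (hQD m q hm hqh fun c e y h => hcon c e y h)
  obtain ⟨i₀, hi₀⟩ : ∃ i, w0 i ≠ 0 := by
    by_contra hcon
    push Not at hcon
    apply hq1
    have hw : w0 = 0 := funext hcon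
    have h1 : ev2 w0 q = 0 := by
      unfold ev2
      rw [hw]
      have h3 : (fun i => (C ((0 : Fin m → ℂ) i) : MvPolynomial (V3 m ⊕ Fin m) ℂ)) =
          fun _ => 0 := by
        funext i
        simp
      rw [h3]
      rw [MvPolynomial.eval_eq]
      refine Finset.sum_eq_zero fun α hα => ?_
      have h4 := hqh (MvPolynomial.mem_support_iff.1 hα)
      have h5 : ∃ i ∈ α.support, α i ≠ 0 := by
        by_contra hcon2
        push Not at hcon2
        have h6 : α = 0 := by
          ext i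
          by_cases hi : i ∈ α.support
          · exact hcon2 i hi
          · simpa using hi
        rw [h6] at h4
        simp at h4
      obtain ⟨i, hi, hi2⟩ := h5
      rw [Finset.prod_eq_zero hi (zero_pow hi2), mul_zero]
    unfold QV
    rw [h1, map_zero]
  -- the polynomials W
  let vv : Fin m → V3 m ⊕ ((Fin m ⊕ (Fin m ⊕ Fin m)) ⊕ (Fin m ⊕ (Fin m ⊕ Fin m))) :=
    fun j => Sum.inr (Sum.inr (Sum.inl j))
  let ee : Fin m → V3 m ⊕ ((Fin m ⊕ (Fin m ⊕ Fin m)) ⊕ (Fin m ⊕ (Fin m ⊕ Fin m))) :=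
    fun j => Sum.inr (Sum.inl (Sum.inr (Sum.inl j)))
  let yy : Fin m → V3 m ⊕ ((Fin m ⊕ (Fin m ⊕ Fin m)) ⊕ (Fin m ⊕ (Fin m ⊕ Fin m))) :=
    fun j => Sum.inr (Sum.inl (Sum.inr (Sum.inr j)))
  let W1 : MvPolynomial (V3 m ⊕ ((Fin m ⊕ (Fin m ⊕ Fin m)) ⊕ (Fin m ⊕ (Fin m ⊕ Fin m)))) ℂ :=
    ∑ j, X (ee j) * X (vv j)
  let W2 : MvPolynomial (V3 m ⊕ ((Fin m ⊕ (Fin m ⊕ Fin m)) ⊕ (Fin m ⊕ (Fin m ⊕ Fin m)))) ℂ :=
    eval₂ (aeval (Sum.elim (fun s => X (Sum.inl s)) (fun j => X (ee j)) :
      V3 m ⊕ Fin m → _) : MvPolynomial (V3 m ⊕ Fin m) ℂ →ₐ[ℂ] _).toRingHom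
      (fun j => X (vv j)) q
  let W3 : MvPolynomial (V3 m ⊕ ((Fin m ⊕ (Fin m ⊕ Fin m)) ⊕ (Fin m ⊕ (Fin m ⊕ Fin m)))) ℂ :=
    eval₂ (aeval (Sum.elim (fun s => X (Sum.inl s)) (fun j => X (vv i₀) * X (yy j) -
      if j = i₀ then ∑ l, X (vv l) * X (yy l) else 0) :
      V3 m ⊕ Fin m → _) : MvPolynomial (V3 m ⊕ Fin m) ℂ →ₐ[ℂ] _).toRingHom
      (fun j => X (vv j)) q
  have eW1 : ∀ x, eval x W1 = ∑ j, x (ee j) * x (vv j) := by
    intro x
    simp [W1]
  have eW2 : ∀ x, eval x W2 = QV q (fun s => x (Sum.inl s)) (fun j => x (ee j))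
      (fun j => x (vv j)) := by
    intro x
    simp only [W2]
    rw [eval_eval2]
    unfold QV
    simp only [eval_X]
    congr 1
    apply congrArg
    funext s
    rcases s with s | s <;> simp
  have eW3 : ∀ x, eval x W3 = QV q (fun s => x (Sum.inl s))
      (Ev i₀ (fun j => x (vv j)) (fun j => x (yy j))) (fun j => x (vv j)) := by
    intro x
    simp only [W3]
    rw [eval_eval2]
    unfold QV
    simp only [eval_X]
    congr 1
    apply congrArg
    funext s
    rcases s with s | s
    · simp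
    · simp only [Sum.elim_inr, Ev]
      split_ifs <;> simp
  have hW1 : W1 ≠ 0 := by
    intro h0
    have := eW1 (fun s => if s = ee i₀ ∨ s = vv i₀ then 1 else 0)
    rw [h0, map_zero, Finset.sum_eq_single i₀] at this
    · simp at this
    · intro j _ hj
      rw [if_neg, zero_mul]
      simp [ee, vv, hj]
    · simp
  have hW2 : W2 ≠ 0 := by
    intro h0
    obtain ⟨c1, w1, h1⟩ := exists_ev2_ne q hq0
    apply h1
    have h2 := eW2 (Sum.elim (fun s => c1 (Sum.inl s))
      (Sum.elim (Sum.elim (fun _ => 0) (Sum.elim (fun j => c1 (Sum.inr j)) fun _ => 0))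
        (Sum.elim w1 fun _ => 0)))
    rw [h0, map_zero] at h2
    simp only [Sum.elim_inl, Sum.elim_inr, ee, vv, QV] at h2
    have h3 : (Sum.elim (fun s => c1 (Sum.inl s)) fun j => c1 (Sum.inr j)) = c1 := by
      funext s
      rcases s with s | s <;> rfl
    rw [h3] at h2
    exact h2.symm
  have hW3 : W3 ≠ 0 := by
    intro h0
    apply hq1
    have h2 := eW3 (Sum.elim c0
      (Sum.elim (Sum.elim (fun _ => 0) (Sum.elim (fun _ => 0) fun j => e0 j / w0 i₀))
        (Sum.elim w0 fun _ => 0)))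
    rw [h0, map_zero] at h2
    simp only [Sum.elim_inl, Sum.elim_inr, yy, vv] at h2
    rw [Ev_eq i₀ w0 e0 hi₀ hew0] at h2
    exact h2.symm
  have hW : W1 * W2 * W3 * X (vv i₀) ≠ 0 :=
    mul_ne_zero (mul_ne_zero (mul_ne_zero hW1 hW2) hW3) (X_ne_zero _)
  obtain ⟨β, a, v, y, hnull, hA0, hzf, hAd, hWne⟩ :=
    hGOODW m N d f hf' (by omega) (Fin m ⊕ Fin m) _ hW
  rw [map_mul, map_mul, map_mul, eW1, eW2, eW3, eval_X] at hWne
  simp only [Sum.elim_inl, Sum.elim_inr, ee, vv, yy] at hWne
  have hne1 := left_ne_zero_of_mul (left_ne_zero_of_mul (left_ne_zero_of_mul hWne))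
  have hne2 := right_ne_zero_of_mul (left_ne_zero_of_mul (left_ne_zero_of_mul hWne))
  have hne3 := right_ne_zero_of_mul (left_ne_zero_of_mul hWne)
  have hne4 := right_ne_zero_of_mul hWne
  clear hWne
  set es : Fin m → ℂ := fun j => y (Sum.inl j) with hes
  set ys : Fin m → ℂ := fun j => y (Sum.inr j) with hys
  set u : Fin m → ℂ := fun j => conj (v j) with hu
  have hvi : v i₀ ≠ 0 := by
    intro h0
    apply hne4
    rw [h0, map_zero]
  have hv0 : v ≠ 0 := fun h0 => hvi (by rw [h0]; rfl)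
  have hprime : Prime (xp β v) := Pool.Agent.Helper13.DC.prime_xp β v hvi
  have hxpβ : eval β (xp β v) = 0 := Pool.Agent.Helper13.DC.eval_xp β v
  -- members divisible by the cube vanish
  have hkill : ∀ c, xp β v ^ (2 + 1) ∣ hq f β (conj a) c → hq f β (conj a) c = 0 := by
    intro c hc
    have hpd := pde4_hq f _ hpde β (conj a) es c
    rw [map_add, map_mul, map_spec4_eY] at hpd
    have hqs : (MvPolynomial.map (spec4 β (conj a) es).toRingHom q).IsHomogeneous 2 :=
      isHomogeneous_map' _ _ hqh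
    have hP₂s : (MvPolynomial.map (spec4 β (conj a) es).toRingHom P₂).totalDegree ≤ 2 :=
      (totalDegree_map_le' _ _).trans hP₂
    have hprod : (eC es * MvPolynomial.map (spec4 β (conj a) es).toRingHom q).IsHomogeneous 3 := by
      have := (eC_hom es).mul hqs
      simpa using this
    apply hTX m (2 + 1) β v _ _ _ hpd hc
    · rw [map_add]
      have h1 : homogeneousComponent (2 + 1)
          (eC es * MvPolynomial.map (spec4 β (conj a) es).toRingHom q) =
          eC es * MvPolynomial.map (spec4 β (conj a) es).toRingHom q := by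
        rw [homogeneousComponent_of_mem ((mem_homogeneousSubmodule _ _).2 hprod)]
        simp
      have h2 : homogeneousComponent (2 + 1)
          (MvPolynomial.map (spec4 β (conj a) es).toRingHom P₂) = 0 :=
        homogeneousComponent_eq_zero _ _ (lt_of_le_of_lt hP₂s (by norm_num))
      rw [h1, h2, add_zero]
      have h3 : ev2 u (eC es * MvPolynomial.map (spec4 β (conj a) es).toRingHom q) =
          ev2 u (eC es) * ev2 u (MvPolynomial.map (spec4 β (conj a) es).toRingHom q) := by
        unfold ev2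
        rw [map_mul]
      rw [h3, map_mul, eval_spec4_q]
      refine mul_ne_zero ?_ hne2
      have h4 : eval β (ev2 u (eC es)) = ∑ j, es j * u j := by
        unfold ev2 eC
        simp
      rw [h4]
      exact hne1
    · refine (totalDegree_add _ _).trans (max_le ?_ (hP₂s.trans (by norm_num)))
      exact hprod.totalDegree_le
  have hwin := windows hHF2 hAJO hEI hSQ f hf' β a hnull hA0 v hzf hAd 2 (by norm_num) hkill
  -- relations whose member is divisible by the cube vanish
  have hIV : ∀ κ : ℕ → ℂ, ∑ j ∈ range (d + 1), κ j • AJ f β a v j = 0 →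
      xp β v ^ 3 ∣ hq f β (conj a) (∑ j ∈ range d, κ j • AJ f β a v (j + 1)) →
      ∀ j ≤ d, κ j = 0 := by
    intro κ hκ hdiv
    obtain ⟨l, hl⟩ := c_mem hHF2 hAJO f hf' β a hnull hA0 v κ (hkill _ hdiv)
    have h1 := hwin (fun j => if j = 0 then -l else κ (j - 1)) ?_
    · intro j hj
      have h2 := h1 (j + 1) (by omega)
      simpa using h2
    · intro l' hl'
      rcases Nat.lt_succ_iff_lt_or_eq.1 hl' with h3 | h3
      · have h4 : l' = 0 := by omega
        subst h4
        rw [Finset.sum_range_succ']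
        simp only [add_zero, Nat.add_sub_cancel, Nat.add_eq_zero_iff, one_ne_zero, and_false,
          if_false, if_true]
        rw [hl, neg_smul, add_neg_cancel]
      · have h4 : l' = 1 := by omega
        subst h4
        simpa using hκ
  -- the wedge
  have hV : ∀ κ1 κ2 : ℕ → ℂ, ∑ j ∈ range (d + 1), κ1 j • AJ f β a v j = 0 →
      ∑ j ∈ range (d + 1), κ2 j • AJ f β a v j = 0 →
      ∃ x y : ℂ, (x ≠ 0 ∨ y ≠ 0) ∧ ∀ j ≤ d, x * κ1 j + y * κ2 j = 0 := by
    intro κ1 κ2 hκ1 hκ2
    have hdiv1 := hEI m N d f hf' β a hnull v 1 κ1 (by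
      intro l hl
      have : l = 0 := by omega
      subst this
      simpa using hκ1)
    have hdiv2 := hEI m N d f hf' β a hnull v 1 κ2 (by
      intro l hl
      have : l = 0 := by omega
      subst this
      simpa using hκ2)
    obtain ⟨b1, hb1⟩ := hdiv1
    obtain ⟨b2, hb2⟩ := hdiv2
    by_cases hxb : xp β v ∣ b1
    · refine ⟨1, 0, Or.inl one_ne_zero, ?_⟩
      have h0 := hIV κ1 hκ1 (by
        rw [hb1]
        obtain ⟨b1', rfl⟩ := hxb
        exact ⟨b1', by ring⟩)
      intro j hj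
      rw [h0 j hj]
      ring
    · -- the wedge condition
      have hTQ' : ∀ (e : Fin m → ℂ), ∑ i, e i * conj (v i) = 0 →
          QV q (pt β (fun i => conj (β i)) (conj a)) e u ≠ 0 →
          xp β v ∣ b1 * (∑ j, C (e j) * pderiv j b2) - b2 * (∑ j, C (e j) * pderiv j b1) := by
        intro e he hqe'
        have hqs : (MvPolynomial.map (spec4 β (conj a) e).toRingHom q).IsHomogeneous 2 :=
          isHomogeneous_map' _ _ hqh
        have hP₂s : (MvPolynomial.map (spec4 β (conj a) e).toRingHom P₂).totalDegree ≤ 2 :=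
          (totalDegree_map_le' _ _).trans hP₂
        have t1 := hTQ m β v e _ _ b1 he hqs hP₂s (by
          have := pde4_hq f _ hpde β (conj a) e (∑ j ∈ range d, κ1 j • AJ f β a v (j + 1))
          rw [map_add, map_mul, map_spec4_eY, hb1] at this
          exact this)
        have t2 := hTQ m β v e _ _ b2 he hqs hP₂s (by
          have := pde4_hq f _ hpde β (conj a) e (∑ j ∈ range d, κ2 j • AJ f β a v (j + 1))
          rw [map_add, map_mul, map_spec4_eY, hb2] at this
          exact this)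
        have t3 : xp β v ∣ ev2 u (MvPolynomial.map (spec4 β (conj a) e).toRingHom q) *
            (b1 * (∑ j, C (e j) * pderiv j b2) - b2 * (∑ j, C (e j) * pderiv j b1)) := by
          have h5 := dvd_sub (Dvd.dvd.mul_left t2 b1) (Dvd.dvd.mul_left t1 b2)
          refine h5.trans (dvd_of_eq ?_)
          ring
        rcases hprime.dvd_or_dvd t3 with h6 | h6
        · exfalso
          apply hqe'
          obtain ⟨r, hr⟩ := h6
          rw [← eval_spec4_q, hr, map_mul, hxpβ, zero_mul]
        · exact h6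
      have hwedge : ∀ e : Fin m → ℂ, ∑ i, e i * conj (v i) = 0 →
          xp β v ∣ b1 * (∑ j, C (e j) * pderiv j b2) - b2 * (∑ j, C (e j) * pderiv j b1) := by
        intro e he
        apply Pool.Agent.Helper81.DC.dvd_of_vanish β v i₀ hvi
        intro τ hτ
        have hxpτ : eval τ (xp β v) = 0 := by
          rw [Pool.Agent.Helper81.DC.eval_xp]
          exact hτ
        set g : Fin m → ℂ := fun j => eval τ (b1 * pderiv j b2 - b2 * pderiv j b1) with hg
        have hWe : ∀ e' : Fin m → ℂ, eval τ (b1 * (∑ j, C (e' j) * pderiv j b2) -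
            b2 * (∑ j, C (e' j) * pderiv j b1)) = ∑ j, e' j * g j := by
          intro e'
          simp only [map_sub, map_mul, map_sum, eval_C, hg, Finset.mul_sum,
            ← Finset.sum_sub_distrib]
          exact Finset.sum_congr rfl fun j _ => by ring
        let Ep : Fin m → MvPolynomial (Fin m) ℂ := fun j => C (u i₀) * X j -
          if j = i₀ then ∑ l, C (u l) * X l else 0
        have hEp : ∀ (z : Fin m → ℂ) j, eval z (Ep j) = Ev i₀ u z j := by
          intro z j
          simp only [Ep, Ev]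
          split_ifs <;> simp
        let P1 : MvPolynomial (Fin m) ℂ := ∑ j, Ep j * C (g j)
        let P2 : MvPolynomial (Fin m) ℂ :=
          eval₂ (aeval (Sum.elim (fun s => C (pt β (fun i => conj (β i)) (conj a) s)) Ep :
            V3 m ⊕ Fin m → MvPolynomial (Fin m) ℂ) :
            MvPolynomial (V3 m ⊕ Fin m) ℂ →ₐ[ℂ] MvPolynomial (Fin m) ℂ).toRingHom
            (fun j => C (u j)) q
        have eP1 : ∀ z, eval z P1 = ∑ j, Ev i₀ u z j * g j := by
          intro z
          simp [P1, hEp]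
        have eP2 : ∀ z, eval z P2 = QV q (pt β (fun i => conj (β i)) (conj a)) (Ev i₀ u z) u := by
          intro z
          simp only [P2]
          rw [eval_eval2]
          unfold QV
          simp only [eval_C]
          congr 1
          apply congrArg
          funext s
          rcases s with s | s
          · simp
          · simp [hEp]
        have hP12 : P1 * P2 = 0 := by
          apply MvPolynomial.funext
          intro z
          rw [map_mul, map_zero]
          by_cases hz : eval z P2 = 0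
          · rw [hz, mul_zero]
          · rw [eP2] at hz
            obtain ⟨r, hr⟩ := hTQ' (Ev i₀ u z) (Ev_orth i₀ u z) hz
            have h7 := hWe (Ev i₀ u z)
            rw [hr, map_mul, hxpτ, zero_mul] at h7
            rw [eP1, ← h7, zero_mul]
        have hP2 : P2 ≠ 0 := by
          intro h0
          apply hne3
          have := eP2 ys
          rw [h0, map_zero] at this
          exact this.symm
        have hP1 : P1 = 0 := (mul_eq_zero.1 hP12).resolve_right hP2
        have h8 := eP1 (fun j => e j / u i₀)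
        rw [hP1, map_zero, Ev_eq i₀ u e hne4 he] at h8
        rw [hWe, ← h8]
      obtain ⟨c, b', hc⟩ := hWR m β v b1 b2 hv0 hxb hwedge
      refine ⟨-conj c, 1, Or.inr one_ne_zero, ?_⟩
      have h0 := hIV (fun j => κ2 j - conj c * κ1 j) ?_ ?_
      · intro j hj
        have := h0 j hj
        linear_combination this
      · simp only [sub_smul, Finset.sum_sub_distrib, mul_smul]
        rw [← Finset.smul_sum, hκ1, hκ2, smul_zero, sub_zero]
      · have h1 : ∑ j ∈ range d, (κ2 j - conj c * κ1 j) • AJ f β a v (j + 1) =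
            (∑ j ∈ range d, κ2 j • AJ f β a v (j + 1)) -
              conj c • ∑ j ∈ range d, κ1 j • AJ f β a v (j + 1) := by
          simp only [sub_smul, Finset.sum_sub_distrib, mul_smul]
          rw [← Finset.smul_sum]
        rw [h1, hq_sub_smul, hb1, hb2, Complex.conj_conj]
        refine ⟨b', ?_⟩
        have : b2 = C c * b1 + xp β v * b' := by
          rw [← hc]
          ring
        rw [this]
        ring
  -- dimension of the space of relations
  have hrank := hCNTR m N d f hf' β a hnull hA0 v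
  set A : Fin (d + 1) → Fin (N + 1) → ℂ := fun j => AJ f β a v j with hA
  set r := Module.finrank ℂ (Submodule.span ℂ (Set.range A)) with hr
  have hker : Module.finrank ℂ (LinearMap.ker (Fintype.linearCombination ℂ A)) ≤ 1 := by
    by_contra hlt
    push Not at hlt
    haveI : Nontrivial (LinearMap.ker (Fintype.linearCombination ℂ A)) :=
      Module.nontrivial_of_finrank_pos (R := ℂ) (by omega)
    obtain ⟨x1, hx1⟩ := exists_ne (0 : LinearMap.ker (Fintype.linearCombination ℂ A))
    obtain ⟨x2, hx2⟩ := exists_linearIndependent_pair_of_one_lt_finrank hlt hx1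
    have hrel : ∀ x : LinearMap.ker (Fintype.linearCombination ℂ A),
        ∑ j ∈ range (d + 1), (fun j : ℕ => if h : j < d + 1 then (x : Fin (d + 1) → ℂ) ⟨j, h⟩ else 0) j •
          AJ f β a v j = 0 := by
      intro x
      have h1 : Fintype.linearCombination ℂ A (x : Fin (d + 1) → ℂ) = 0 := x.2
      rw [Fintype.linearCombination_apply] at h1
      rw [← Fin.sum_univ_eq_sum_range (fun j => (fun j : ℕ => if h : j < d + 1 then
        (x : Fin (d + 1) → ℂ) ⟨j, h⟩ else 0) j • AJ f β a v j) (d + 1), ← h1]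
      refine Finset.sum_congr rfl fun j _ => ?_
      beta_reduce
      rw [dif_pos j.2]
    obtain ⟨x, y', hxy, hz⟩ := hV _ _ (hrel x1) (hrel x2)
    have h2 : x • x1 + y' • x2 = 0 := by
      apply Subtype.ext
      funext j
      have h9 := hz j (by have := j.2; omega)
      rw [dif_pos j.2, dif_pos j.2] at h9
      exact h9
    have h3 := LinearIndependent.pair_iff.1 hx2 x y' h2
    rcases hxy with h | h
    · exact h h3.1
    · exact h h3.2
  have hrn := LinearMap.finrank_range_add_finrank_ker (Fintype.linearCombination ℂ A)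
  rw [Fintype.range_linearCombination, ← hr, Module.finrank_fin_fun] at hrn
  have hdr : d - 1 ≤ r - 1 := by omega
  have := Nat.mul_le_mul_left m hdr
  omega

theorem descentQ_of (hHF2 : G_HF2) (hAJO : G_AJO) (hEI : H_EI) (hSQ : H_SQ) (hDQ : H_DQ)
    (hTX : H_TX) (hTQ : H_TQ) (hWR : H_WR) (hGOODW : H_GOODW) (hCNTR : H_CNTR) (hJ1 : H_J1)
    (hPE : H_PE) (hQD : H_QD) (hCAY : G_CAY)
    (n N d : ℕ) (hn : 3 ≤ n) (hN : N < n ^ 2) (hd : 1 < d)
    (p : Fin N → MvPolynomial (Fin n) ℂ) (q : MvPolynomial (Fin n) ℂ)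
    (hf : IsProperMap p q) (hdeg : mapDegree p q = d) :
    ∃ p' : Fin N → MvPolynomial (Fin n) ℂ, IsProperMap p' 1 ∧
      (∀ j, ∃ (α : Fin n →₀ ℕ) (c : ℂ), p' j = monomial α c) ∧ mapDegree p' 1 = d - 1 := by
  obtain ⟨m, rfl⟩ : ∃ m, n = m + 1 := ⟨n - 1, by omega⟩
  obtain ⟨f, hf'⟩ := hCAY m N d p q hf hdeg
  have h1 := siegel_Q hHF2 hAJO hEI hSQ hDQ hTX hTQ hWR hGOODW hCNTR hJ1 hPE hQD f hf'
    (by omega) (by omega) hN
  exact whitney (by omega) h1

end Pool.Agent.Helper69.DC
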