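import Mathlib
import Pool.Agent.Helper69.DC.Final2
import Pool.Agent.Helper69.DC.Asm3
import Pool.Agent.Helper64.DC.PE
import Pool.Agent.Helper79.DC.TQ
import Pool.Agent.Helper5.DC.WR
import Pool.Agent.Helper85.DC.QD

/-!
Unconditional descent of the degree for `N < n²`.
-/

namespace Pool.Agent.Helper69.DC

open MvPolynomial Finset ComplexConjugate Pool.Agent.Helper28.Ball

theorem h_tq : H_TQ := Pool.Agent.Helper79.DC.h_tq
theorem h_wr : H_WR := Pool.Agent.Helper5.DC.h_wr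
theorem h_qd : H_QD := Pool.Agent.Helper85.DC.h_qd
theorem h_pe : H_PE := Pool.Agent.Helper64.DC.h_pe

theorem siegelQ {m N d : ℕ} (f : Fin (N + 1) → MvPolynomial (Fin m ⊕ Unit) ℂ)
    (hf' : SMap m N d f) (hm : 2 ≤ m) (hd : 1 ≤ d) (hN : N < (m + 1) ^ 2) :
    m * (d - 1) + 1 ≤ N :=
  siegel_Q k_hf2 k_ajo h_ei h_sq h_dq h_tx h_tq h_wr h_goodw h_cntr h_j1 h_pe h_qd f hf' hm hd hN

/-- The degree bound and the descent together. -/
theorem boundQ (n N d : ℕ) (hn : 3 ≤ n) (hN : N < n ^ 2) (hd : 1 ≤ d)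
    (p : Fin N → MvPolynomial (Fin n) ℂ) (q : MvPolynomial (Fin n) ℂ)
    (hf : IsProperMap p q) (hdeg : mapDegree p q = d) : (n - 1) * (d - 1) + 1 ≤ N := by
  obtain ⟨m, rfl⟩ : ∃ m, n = m + 1 := ⟨n - 1, by omega⟩
  obtain ⟨f, hf'⟩ := k_cay m N d p q hf hdeg
  rw [Nat.add_sub_cancel]
  exact siegelQ f hf' (by omega) hd hN

theorem descentQ (n N d : ℕ) (hn : 3 ≤ n) (hN : N < n ^ 2) (hd : 1 < d)
    (p : Fin N → MvPolynomial (Fin n) ℂ) (q : MvPolynomial (Fin n) ℂ)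
    (hf : IsProperMap p q) (hdeg : mapDegree p q = d) :
    ∃ p' : Fin N → MvPolynomial (Fin n) ℂ, IsProperMap p' 1 ∧
      (∀ j, ∃ (α : Fin n →₀ ℕ) (c : ℂ), p' j = monomial α c) ∧ mapDegree p' 1 = d - 1 :=
  descentQ_of k_hf2 k_ajo h_ei h_sq h_dq h_tx h_tq h_wr h_goodw h_cntr h_j1 h_pe h_qd k_cay
    n N d hn hN hd p q hf hdeg

end Pool.Agent.Helper69.DC
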