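import Mathlib
import Pool.Agent.Helper69.DC.Final3
import Pool.Agent.Helper66.DC.Asm4
import Pool.Agent.Helper66.DC.Asm5
import Pool.Agent.Helper66.DC.Asm6

/-!
Passage from the Siegel form to proper maps for the third and fourth stage.
-/

namespace Pool.Agent.Helper69.DC

open MvPolynomial Finset ComplexConjugate Pool.Agent.Helper28.Ball

theorem lift_bound {n N d : ℕ} (hn : 2 ≤ n) (Q : Prop)
    (h : ∀ f : Fin (N + 1) → MvPolynomial (Fin (n - 1) ⊕ Unit) ℂ, SMap (n - 1) N d f → Q)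
    (p : Fin N → MvPolynomial (Fin n) ℂ) (q : MvPolynomial (Fin n) ℂ)
    (hf : IsProperMap p q) (hdeg : mapDegree p q = d) : Q := by
  obtain ⟨m, rfl⟩ : ∃ m, n = m + 1 := ⟨n - 1, by omega⟩
  obtain ⟨f, hf'⟩ := k_cay m N d p q hf hdeg
  exact h f hf'

/-- From a degree bound to a monomial map of one degree lower. -/
theorem descent_of_bound {n N d : ℕ} (hn : 2 ≤ n) (hd : 1 < d) (h : (n - 1) * (d - 1) + 1 ≤ N) :
    ∃ p' : Fin N → MvPolynomial (Fin n) ℂ, IsProperMap p' 1 ∧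
      (∀ j, ∃ (α : Fin n →₀ ℕ) (c : ℂ), p' j = monomial α c) ∧ mapDegree p' 1 = d - 1 := by
  obtain ⟨m, rfl⟩ : ∃ m, n = m + 1 := ⟨n - 1, by omega⟩
  rw [Nat.add_sub_cancel] at h
  exact whitney (by omega) h

theorem bound_pred {m N d : ℕ} (h : m * d + 1 ≤ N) : m * (d - 1) + 1 ≤ N :=
  le_trans (Nat.add_le_add_right (Nat.mul_le_mul_left m (Nat.sub_le d 1)) 1) h

end Pool.Agent.Helper69.DC
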