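import Mathlib
import Pool.Agent.Helper69.DC.Lift4
import Pool.Agent.Helper66.DC.Final4

/-!
The sharp degree bound and the descent of the degree for `n > 16 K²` and `N < C(n+K, K+1)`.
-/

namespace Pool.Agent.Helper69.DC

open MvPolynomial Finset ComplexConjugate Pool.Agent.Helper28.Ball

theorem boundK (n N d K : ℕ) (hK : 2 ≤ K) (hn : 16 * K ^ 2 < n) (hN : N < (n + K).choose (K + 1))
    (hd : 1 ≤ d) (p : Fin N → MvPolynomial (Fin n) ℂ) (q : MvPolynomial (Fin n) ℂ)
    (hf : IsProperMap p q) (hdeg : mapDegree p q = d) : (n - 1) * d + 1 ≤ N := by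
  have hK2 : 4 ≤ K ^ 2 := by nlinarith
  refine lift_bound (d := d) (by omega) _ (fun f hf' => ?_) p q hf hdeg
  refine Pool.Agent.Helper66.DC.siegelK f hf' hK (by omega) hd ?_
  have h1 : n - 1 + (K + 1) = n + K := by omega
  rw [h1]
  have h2 : (n + K).choose (n - 1) = (n + K).choose (K + 1) := by
    rw [← Nat.choose_symm (show K + 1 ≤ n + K by omega)]
    congr 1
    omega
  rw [h2]
  exact hN

theorem descentK (n N d K : ℕ) (hK : 2 ≤ K) (hn : 16 * K ^ 2 < n) (hN : N < (n + K).choose (K + 1))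
    (hd : 1 < d) (p : Fin N → MvPolynomial (Fin n) ℂ) (q : MvPolynomial (Fin n) ℂ)
    (hf : IsProperMap p q) (hdeg : mapDegree p q = d) :
    ∃ p' : Fin N → MvPolynomial (Fin n) ℂ, IsProperMap p' 1 ∧
      (∀ j, ∃ (α : Fin n →₀ ℕ) (c : ℂ), p' j = monomial α c) ∧ mapDegree p' 1 = d - 1 := by
  have hK2 : 4 ≤ K ^ 2 := by nlinarith
  exact descent_of_bound (by omega) hd
    (bound_pred (boundK n N d K hK hn hN (by omega) p q hf hdeg))

end Pool.Agent.Helper69.DC
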