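import Mathlib
import Pool.Agent.Helper69.DC.Final4
import Pool.Agent.Helper66.DC.Final5

/-!
The degree bounds and the descent of the degree in all the ranges reached.
-/

namespace Pool.Agent.Helper69.DC

open MvPolynomial Finset ComplexConjugate Pool.Agent.Helper28.Ball

theorem boundCP (n N d a : ℕ) (hn : 2 ≤ n) (ha : 1 ≤ a)
    (hN : N < (n + a - 1).choose a + (n + 2 * a - 1).choose (2 * a + 1)) (hd : 1 ≤ d)
    (p : Fin N → MvPolynomial (Fin n) ℂ) (q : MvPolynomial (Fin n) ℂ)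
    (hf : IsProperMap p q) (hdeg : mapDegree p q = d) : (n - 1) * d ≤ a * (N - 1) := by
  obtain ⟨m, rfl⟩ : ∃ m, n = m + 2 := ⟨n - 2, by omega⟩
  refine lift_bound (d := d) (by omega) _ (fun f hf' => ?_) p q hf hdeg
  refine Pool.Agent.Helper66.DC.siegelCP (m := m) f hf' hd ha ?_
  have h1 : (m + 1 + a).choose (m + 1) = (m + 2 + a - 1).choose a := by
    rw [show m + 2 + a - 1 = m + 1 + a by omega, ← Nat.choose_symm (show a ≤ m + 1 + a by omega)]
    congr 1
    omega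
  have h2 : (m + (2 * a + 1)).choose m = (m + 2 + 2 * a - 1).choose (2 * a + 1) := by
    rw [show m + 2 + 2 * a - 1 = m + (2 * a + 1) by omega,
      ← Nat.choose_symm (show 2 * a + 1 ≤ m + (2 * a + 1) by omega)]
    congr 1
    omega
  rw [h1, h2]
  exact hN

theorem boundK3 (n N d : ℕ) (hn : 5 ≤ n) (hN : N < (n + 2).choose 3) (hd : 1 ≤ d)
    (p : Fin N → MvPolynomial (Fin n) ℂ) (q : MvPolynomial (Fin n) ℂ)
    (hf : IsProperMap p q) (hdeg : mapDegree p q = d) : (n - 1) * d + 1 ≤ N := by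
  refine lift_bound (d := d) (by omega) _ (fun f hf' => ?_) p q hf hdeg
  refine Pool.Agent.Helper66.DC.siegelK3 f hf' (by omega) hd ?_
  have h2 : (n - 1 + 3).choose (n - 1) = (n + 2).choose 3 := by
    rw [show n - 1 + 3 = n + 2 by omega, ← Nat.choose_symm (show 3 ≤ n + 2 by omega)]
    congr 1
  rw [h2]
  exact hN

/-- The degree bound `(n-1) d ≤ a (N-1)` in all the ranges. -/
theorem boundAll (n N d a : ℕ) (hn : 2 ≤ n) (ha : 1 ≤ a)
    (hN : N < (n + a - 1).choose a + (n + 2 * a - 1).choose (2 * a + 1) ∨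
      a = 1 ∧ (5 ≤ n ∧ N < (n + 2).choose 3 ∨
        ∃ K, 2 ≤ K ∧ 16 * K ^ 2 < n ∧ N < (n + K).choose (K + 1))) (hd : 1 ≤ d)
    (p : Fin N → MvPolynomial (Fin n) ℂ) (q : MvPolynomial (Fin n) ℂ)
    (hf : IsProperMap p q) (hdeg : mapDegree p q = d) : (n - 1) * d ≤ a * (N - 1) := by
  rcases hN with h | ⟨rfl, h⟩
  · exact boundCP n N d a hn ha h hd p q hf hdeg
  · have h1 : (n - 1) * d + 1 ≤ N := by
      rcases h with ⟨h5, h⟩ | ⟨K, hK, hKn, h⟩
      · exact boundK3 n N d h5 h hd p q hf hdeg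
      · exact boundK n N d K hK hKn h hd p q hf hdeg
    omega

/-- The descent of the degree in all the ranges. -/
theorem descentAll (n N d : ℕ)
    (hN : 3 ≤ n ∧ N < n ^ 2 ∨ 5 ≤ n ∧ N < (n + 2).choose 3 ∨
      ∃ K, 2 ≤ K ∧ 16 * K ^ 2 < n ∧ N < (n + K).choose (K + 1)) (hd : 1 < d)
    (p : Fin N → MvPolynomial (Fin n) ℂ) (q : MvPolynomial (Fin n) ℂ)
    (hf : IsProperMap p q) (hdeg : mapDegree p q = d) :
    ∃ p' : Fin N → MvPolynomial (Fin n) ℂ, IsProperMap p' 1 ∧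
      (∀ j, ∃ (α : Fin n →₀ ℕ) (c : ℂ), p' j = monomial α c) ∧ mapDegree p' 1 = d - 1 := by
  rcases hN with ⟨hn, h⟩ | ⟨hn, h⟩ | ⟨K, hK, hn, h⟩
  · exact descentQ n N d hn h hd p q hf hdeg
  · exact descent_of_bound (by omega) hd
      (bound_pred (boundK3 n N d hn h (by omega) p q hf hdeg))
  · exact descentK n N d K hK hn h hd p q hf hdeg

end Pool.Agent.Helper69.DC
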